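import Mathlib

/-!
# Motzkin's transposition theorem for finite systems of affine inequalities
-/

set_option autoImplicit false

namespace Pool.Agent.Lib.VC77.Motz

/-- The constraint `v · Y + c ≥ 0`, and `v · Y + c > 0` if `st`. -/
structure Con (m : ℕ) where
  /-- the linear part -/
  v : Fin m → ℝ
  /-- the constant -/
  c : ℝ
  /-- strictness -/
  st : Prop

/-- the constraint is satisfied -/
def Con.Sat {m : ℕ} (x : Con m) (Y : Fin m → ℝ) : Prop :=
  0 ≤ ∑ i, x.v i * Y i + x.c ∧ (x.st → 0 < ∑ i, x.v i * Y i + x.c)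

/-- consequences of constraints -/
inductive Der {m : ℕ} (L : Set (Con m)) : Con m → Prop
  | base {x : Con m} (h : x ∈ L) : Der L x
  | comb {x y : Con m} (r s : ℝ) (hr : 0 < r) (hs : 0 < s) (hx : Der L x) (hy : Der L y) :
      Der L ⟨fun i => r * x.v i + s * y.v i, r * x.c + s * y.c, x.st ∨ y.st⟩

theorem oneDim {T : Type} (P N : Set T) (hP : P.Finite) (hN : N.Finite) (lo hi : T → ℝ)
    (st : T → Prop) (h : ∀ p ∈ P, ∀ n ∈ N, lo p ≤ hi n ∧ (st p ∨ st n → lo p < hi n)) :
    ∃ y : ℝ, (∀ p ∈ P, lo p ≤ y ∧ (st p → lo p < y)) ∧ ∀ n ∈ N, y ≤ hi n ∧ (st n → y < hi n) := by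
  rcases P.eq_empty_or_nonempty with rfl | hPn
  · rcases N.eq_empty_or_nonempty with rfl | hNn
    · exact ⟨0, by simp, by simp⟩
    · obtain ⟨n0, -, hn⟩ := Set.exists_min_image N hi hN hNn
      refine ⟨hi n0 - 1, by simp, fun n hn' => ?_⟩
      have := hn n hn'
      exact ⟨by linarith, fun _ => by linarith⟩
  · obtain ⟨p0, hp0, hp⟩ := Set.exists_max_image P lo hP hPn
    rcases N.eq_empty_or_nonempty with rfl | hNn
    · refine ⟨lo p0 + 1, fun p hp' => ?_, by simp⟩
      have := hp p hp'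
      exact ⟨by linarith, fun _ => by linarith⟩
    · obtain ⟨n0, hn0, hn⟩ := Set.exists_min_image N hi hN hNn
      refine ⟨(lo p0 + hi n0) / 2, fun p hp' => ?_, fun n hn' => ?_⟩
      · have h1 := hp p hp'
        have h2 := (h p0 hp0 n0 hn0).1
        refine ⟨by linarith, fun hst => ?_⟩
        have h3 := (h p hp' n0 hn0).2 (Or.inl hst)
        linarith
      · have h1 := hn n hn'
        have h2 := (h p0 hp0 n0 hn0).1
        refine ⟨by linarith, fun hst => ?_⟩
        have h3 := (h p0 hp0 n hn').2 (Or.inr hst)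
        linarith

/-- forget the first variable -/
def tl {m : ℕ} (x : Con (m + 1)) : Con m := ⟨fun i => x.v i.succ, x.c, x.st⟩

/-- eliminate the first variable -/
def cmb {m : ℕ} (p : Con (m + 1) × Con (m + 1)) : Con (m + 1) :=
  ⟨fun i => (-p.2.v 0) * p.1.v i + p.1.v 0 * p.2.v i, (-p.2.v 0) * p.1.c + p.1.v 0 * p.2.c,
    p.1.st ∨ p.2.st⟩

theorem alternative {m : ℕ} : ∀ L : Set (Con m), L.Finite →
    (∃ Y, ∀ x ∈ L, x.Sat Y) ∨ ∃ x, Der L x ∧ (∀ i, x.v i = 0) ∧ (x.c < 0 ∨ (x.c ≤ 0 ∧ x.st)) := by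
  induction m with
  | zero =>
    intro L _
    by_cases h : ∀ x ∈ L, x.Sat Fin.elim0
    · exact Or.inl ⟨_, h⟩
    · push Not at h
      obtain ⟨x, hx, hs⟩ := h
      refine Or.inr ⟨x, .base hx, fun i => i.elim0, ?_⟩
      simp only [Con.Sat, Finset.univ_eq_empty, Finset.sum_empty, zero_add, not_and_or, not_le,
        Classical.not_imp, not_lt] at hs
      rcases hs with hs | hs
      · exact Or.inl hs
      · exact Or.inr ⟨hs.2, hs.1⟩
  | succ m ih =>
    intro L hL
    set Z : Set (Con (m + 1)) := {x ∈ L | x.v 0 = 0} with hZ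
    set P : Set (Con (m + 1)) := {x ∈ L | 0 < x.v 0} with hP
    set N : Set (Con (m + 1)) := {x ∈ L | x.v 0 < 0} with hN
    have fZ : Z.Finite := hL.subset fun x hx => hx.1
    have fP : P.Finite := hL.subset fun x hx => hx.1
    have fN : N.Finite := hL.subset fun x hx => hx.1
    rcases ih (tl '' Z ∪ (fun p => tl (cmb p)) '' (P ×ˢ N))
      ((fZ.image _).union ((fP.prod fN).image _)) with ⟨Y, hY⟩ | ⟨x', hx', hv, hc⟩
    · left
      -- the first variable
      have hR : ∀ x : Con (m + 1), ∀ y : ℝ,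
          ∑ i, x.v i * (Fin.cons y Y : Fin (m + 1) → ℝ) i + x.c =
            x.v 0 * y + (∑ i, (tl x).v i * Y i + x.c) := by
        intro x y
        rw [Fin.sum_univ_succ]
        simp only [Fin.cons_zero, Fin.cons_succ, tl]
        ring
      set R : Con (m + 1) → ℝ := fun x => ∑ i, (tl x).v i * Y i + x.c with hRdef
      obtain ⟨y, hy1, hy2⟩ := oneDim P N fP fN (fun x => -(R x) / x.v 0) (fun x => R x / -(x.v 0))
        Con.st (by
          intro p hp n hn
          have h1 := hY _ (Or.inr ⟨(p, n), ⟨hp, hn⟩, rfl⟩)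
          have h2 : ∑ i, (tl (cmb (p, n))).v i * Y i + (tl (cmb (p, n))).c =
              (-n.v 0) * R p + p.v 0 * R n := by
            simp only [hRdef, tl, cmb, mul_add, Finset.mul_sum, add_mul, Finset.sum_add_distrib]
            have e1 : ∀ i : Fin m, -n.v 0 * p.v i.succ * Y i = -n.v 0 * (p.v i.succ * Y i) :=
              fun i => by ring
            have e2 : ∀ i : Fin m, p.v 0 * n.v i.succ * Y i = p.v 0 * (n.v i.succ * Y i) :=
              fun i => by ring
            simp only [e1, e2]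
            ring
          rw [Con.Sat, h2] at h1
          have hp0 : 0 < p.v 0 := hp.2
          have hn0 : 0 < -n.v 0 := neg_pos.2 hn.2
          constructor
          · rw [div_le_div_iff₀ hp0 hn0]
            linarith [h1.1]
          · intro hst
            rw [div_lt_div_iff₀ hp0 hn0]
            linarith [h1.2 hst])
      refine ⟨Fin.cons y Y, fun x hx => ?_⟩
      rw [Con.Sat, hR]
      rcases lt_trichotomy (x.v 0) 0 with h0 | h0 | h0
      · have h1 := hy2 x ⟨hx, h0⟩
        have h2 : 0 < -x.v 0 := neg_pos.2 h0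
        rw [le_div_iff₀ h2, lt_div_iff₀ h2] at h1
        refine ⟨?_, fun hst => ?_⟩
        · have := h1.1
          simp only [hRdef] at this
          linarith
        · have := h1.2 hst
          simp only [hRdef] at this
          linarith
      · have h1 := hY _ (Or.inl ⟨x, ⟨hx, h0⟩, rfl⟩)
        rw [h0, zero_mul, zero_add]
        exact h1
      · have h1 := hy1 x ⟨hx, h0⟩
        rw [div_le_iff₀ h0, div_lt_iff₀ h0] at h1
        refine ⟨?_, fun hst => ?_⟩
        · have := h1.1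
          simp only [hRdef] at this
          linarith
        · have := h1.2 hst
          simp only [hRdef] at this
          linarith
    · right
      have key : ∀ x', Der (tl '' Z ∪ (fun p => tl (cmb p)) '' (P ×ˢ N)) x' →
          ∃ x, Der L x ∧ x.v 0 = 0 ∧ x' = tl x := by
        intro x' h
        induction h with
        | base h =>
          rcases h with ⟨x, hx, rfl⟩ | ⟨⟨p, n⟩, ⟨hp, hn⟩, rfl⟩
          · exact ⟨x, .base hx.1, hx.2, rfl⟩
          · refine ⟨cmb (p, n), .comb _ _ (neg_pos.2 hn.2) hp.2 (.base hp.1) (.base hn.1), ?_, rfl⟩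
            simp only [cmb]
            ring
        | comb r s hr hs _ _ h1 h2 =>
          obtain ⟨x, hx, hx0, rfl⟩ := h1
          obtain ⟨y, hy, hy0, rfl⟩ := h2
          exact ⟨_, .comb r s hr hs hx hy, by simp only [hx0, hy0]; ring, rfl⟩
      obtain ⟨x, hx, hx0, rfl⟩ := key x' hx'
      refine ⟨x, hx, fun i => ?_, hc⟩
      refine Fin.cases hx0 (fun j => hv j) i

/-- multipliers of a consequence -/
theorem Der.mult {m : ℕ} {T : Type} [Fintype T] (g : T → Con m) {x : Con m}
    (h : Der (Set.range g) x) : ∃ μ : T → ℝ, (∀ t, 0 ≤ μ t) ∧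
      (∀ i, ∑ t, μ t * (g t).v i = x.v i) ∧ ∑ t, μ t * (g t).c = x.c ∧
      (x.st → ∃ t, (g t).st ∧ 0 < μ t) := by
  classical
  induction h with
  | base h =>
    obtain ⟨t, rfl⟩ := h
    refine ⟨Pi.single t 1, fun t' => ?_, fun i => ?_, ?_, fun hst => ⟨t, hst, by simp⟩⟩
    · by_cases ht : t' = t
      · subst ht; simp
      · simp [ht]
    · simp [Pi.single_apply]
    · simp [Pi.single_apply]
  | comb r s hr hs _ _ h1 h2 =>
    obtain ⟨μ, a1, a2, a3, a4⟩ := h1
    obtain ⟨ν, b1, b2, b3, b4⟩ := h2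
    refine ⟨fun t => r * μ t + s * ν t, fun t => ?_, fun i => ?_, ?_, ?_⟩
    · have := mul_nonneg hr.le (a1 t)
      have := mul_nonneg hs.le (b1 t)
      linarith
    · simp only [add_mul, Finset.sum_add_distrib, mul_assoc, ← Finset.mul_sum, a2, b2]
    · simp only [add_mul, Finset.sum_add_distrib, mul_assoc, ← Finset.mul_sum, a3, b3]
    · rintro (hst | hst)
      · obtain ⟨t, ht, hμ⟩ := a4 hst
        exact ⟨t, ht, by have := mul_pos hr hμ; have := mul_nonneg hs.le (b1 t); linarith⟩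
      · obtain ⟨t, ht, hν⟩ := b4 hst
        exact ⟨t, ht, by have := mul_pos hs hν; have := mul_nonneg hr.le (a1 t); linarith⟩

/-- Motzkin's transposition theorem -/
theorem motzkin {m : ℕ} {T : Type} [Fintype T] (g : T → Con m) :
    (¬ ∃ Y, ∀ t, (g t).Sat Y) ↔ ∃ μ : T → ℝ, (∀ t, 0 ≤ μ t) ∧ (∀ i, ∑ t, μ t * (g t).v i = 0) ∧
      (∑ t, μ t * (g t).c < 0 ∨ (∑ t, μ t * (g t).c ≤ 0 ∧ ∃ t, (g t).st ∧ 0 < μ t)) := by
  constructor
  · intro h
    rcases alternative (Set.range g) (Set.finite_range g) with ⟨Y, hY⟩ | ⟨x, hx, hv, hc⟩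
    · exact (h ⟨Y, fun t => hY _ ⟨t, rfl⟩⟩).elim
    · obtain ⟨μ, a1, a2, a3, a4⟩ := hx.mult g
      refine ⟨μ, a1, fun i => (a2 i).trans (hv i), ?_⟩
      rw [a3]
      rcases hc with hc | hc
      · exact Or.inl hc
      · exact Or.inr ⟨hc.1, a4 hc.2⟩
  · rintro ⟨μ, a1, a2, a3⟩ ⟨Y, hY⟩
    have h1 : ∑ t, μ t * (∑ i, (g t).v i * Y i + (g t).c) = ∑ t, μ t * (g t).c := by
      have h2 : ∑ t, μ t * ∑ i, (g t).v i * Y i = 0 := by
        simp only [Finset.mul_sum]
        rw [Finset.sum_comm]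
        have h3 : ∀ i, ∑ t, μ t * ((g t).v i * Y i) = (∑ t, μ t * (g t).v i) * Y i := by
          intro i
          rw [Finset.sum_mul]
          exact Finset.sum_congr rfl fun t _ => by ring
        simp only [h3, a2, zero_mul, Finset.sum_const_zero]
      simp only [mul_add, Finset.sum_add_distrib, h2, zero_add]
    have h4 : ∀ t, 0 ≤ μ t * (∑ i, (g t).v i * Y i + (g t).c) := fun t =>
      mul_nonneg (a1 t) (hY t).1
    have h5 : 0 ≤ ∑ t, μ t * (g t).c := h1 ▸ Finset.sum_nonneg fun t _ => h4 t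
    rcases a3 with a3 | ⟨a3, t, hst, ht⟩
    · linarith
    · have h6 : 0 < ∑ t, μ t * (∑ i, (g t).v i * Y i + (g t).c) :=
        Finset.sum_pos' (fun t _ => h4 t) ⟨t, Finset.mem_univ _, mul_pos ht ((hY t).2 hst)⟩
      rw [h1] at h6
      linarith

end Pool.Agent.Lib.VC77.Motz
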