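import Pool.Agent.Lib.VC77.Inj
import Pool.Agent.Lib.VC77.Motz

/-!
# Sentences whose real universal block is affine
-/

set_option autoImplicit false

namespace Pool.Agent.Lib.VC77.AF

open Pool.Agent.Lib.PolyFun
open TK

/-! ### The formula -/

/-- the sum of a list of terms -/
def bigSum {V : Type} : List (Tm V) → Tm V
  | [] => .const 0
  | t :: l => .add t (bigSum l)

theorem val_bigSum {V : Type} (ρ : V → ℝ) (l : List (Tm V)) :
    (bigSum l).val ρ = (l.map fun t => t.val ρ).sum := by
  induction l with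
  | nil => simp [bigSum, Tm.val]
  | cons t l ih => simp [bigSum, Tm.val, ih]

section

variable {a k s c m : ℕ}

/-- the variables of the new sentence -/
abbrev Va (a k s c : ℕ) : Type := Fin a ⊕ (Fin (k + (s + s)) ⊕ Fin (c + (s + s)))

/-- the bit `[ℓ_j > 0]` -/
def pT (j : Fin s) : Tm (Va a k s c) := .var (.inr (.inl (Fin.natAdd k (Fin.castAdd s j))))

/-- the bit `[ℓ_j < 0]` -/
def nT (j : Fin s) : Tm (Va a k s c) := .var (.inr (.inl (Fin.natAdd k (Fin.natAdd s j))))

/-- the first multiplier of `ℓ_j` -/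
def muT (j : Fin s) : Tm (Va a k s c) := .var (.inr (.inr (Fin.natAdd c (Fin.castAdd s j))))

/-- the second multiplier of `ℓ_j` -/
def nuT (j : Fin s) : Tm (Va a k s c) := .var (.inr (.inr (Fin.natAdd c (Fin.natAdd s j))))

/-- `μ (2 p - 1) + ν (1 - 2 n)` -/
def theta {V : Type} (p n μ ν : Tm V) : Tm V :=
  .add (.mul μ (.add p (.add p (.const (-1)))))
    (.mul ν (.add (.const 1) (.mul (.const (-1)) (.add n n))))

/-- the total multiplier of `ℓ_j` -/
def thT (j : Fin s) : Tm (Va a k s c) := theta (pT j) (nT j) (muT j) (nuT j)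

/-- the variables of the coefficients -/
def emb : Fin a ⊕ Fin k → Va a k s c := Sum.elim .inl fun i => .inr (.inl (Fin.castAdd _ i))

/-- the variables of the matrix -/
def embM : Fin a ⊕ (Fin (k + (s + s)) ⊕ Fin c) → Va a k s c :=
  Sum.elim .inl (Sum.elim (fun i => .inr (.inl i)) fun l => .inr (.inr (Fin.castAdd _ l)))

/-- a certificate that the signs do not occur, in terms of the parts -/
def certF {V : Type} (nn : Fml V) (lin : Fml V) (cst : Tm V) (str : Fml V) : Fml V :=
  .and nn (.and lin (.or (.lt cst (.const 0)) (.and (.not (.lt (.const 0) cst)) str)))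

/-- a certificate that the signs do not occur -/
def cert (A : Fin s → Fin m → Tm (Fin a ⊕ Fin k)) (B : Fin s → Tm (Fin a ⊕ Fin k)) :
    Fml (Va a k s c) :=
  certF
    (bigAnd ((List.finRange s).map fun j =>
      .and (.not (.lt (muT j) (.const 0))) (.not (.lt (nuT j) (.const 0)))))
    (bigAnd ((List.finRange m).map fun i =>
      .eq (bigSum ((List.finRange s).map fun j => .mul (thT j) ((A j i).map emb))) (.const 0)))
    (bigSum ((List.finRange s).map fun j => .mul (thT j) ((B j).map emb)))
    (bigOr ((List.finRange s).map fun j =>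
      .or (.and (.eq (pT j) (.const 1)) (.lt (.const 0) (muT j)))
        (.and (.eq (nT j) (.const 1)) (.lt (.const 0) (nuT j)))))

end

/-- The sentence with a Boolean universal block. -/
def boolOf (S : AffSentence) : Sentence :=
  ⟨S.a, S.k + (S.s + S.s), S.c + (S.s + S.s), .or (S.Ψ.map embM) (cert S.A S.B)⟩

/-! ### Correctness -/

section

variable {a k s c m : ℕ}

/-- the sign of a bit of the first kind -/
def eps (p : Bool) : ℝ := if p then 1 else -1

/-- the constraints of a sign vector -/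
def cons (p n : Fin s → Bool) (A : Fin s → Fin m → ℝ) (B : Fin s → ℝ) :
    Fin s ⊕ Fin s → Motz.Con m :=
  Sum.elim (fun j => ⟨fun i => eps (p j) * A j i, eps (p j) * B j, p j = true⟩)
    fun j => ⟨fun i => -eps (n j) * A j i, -eps (n j) * B j, n j = true⟩

theorem sat_cons (p n : Fin s → Bool) (A : Fin s → Fin m → ℝ) (B : Fin s → ℝ) (Y : Fin m → ℝ) :
    (∀ t, (cons p n A B t).Sat Y) ↔ ∀ j, (p j = true ↔ 0 < ∑ i, A j i * Y i + B j) ∧
      (n j = true ↔ ∑ i, A j i * Y i + B j < 0) := by
  have e : ∀ (r : ℝ) (j : Fin s), ∑ i, r * A j i * Y i + r * B j =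
      r * (∑ i, A j i * Y i + B j) := by
    intro r j
    simp only [mul_add, Finset.mul_sum, mul_assoc]
  have h1 : ∀ j, (cons p n A B (.inl j)).Sat Y ↔ (p j = true ↔ 0 < ∑ i, A j i * Y i + B j) := by
    intro j
    simp only [cons, Sum.elim_inl, Motz.Con.Sat, e]
    generalize ∑ i, A j i * Y i + B j = l
    cases p j
    · simp only [eps, Bool.false_eq_true, if_false, false_implies, and_true, false_iff, not_lt]
      constructor <;> intro h <;> linarith
    · simp only [eps, if_true, true_implies, one_mul, true_iff]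
      exact ⟨fun h => h.2, fun h => ⟨h.le, h⟩⟩
  have h2 : ∀ j, (cons p n A B (.inr j)).Sat Y ↔ (n j = true ↔ ∑ i, A j i * Y i + B j < 0) := by
    intro j
    simp only [cons, Sum.elim_inr, Motz.Con.Sat, e]
    generalize ∑ i, A j i * Y i + B j = l
    cases n j
    · simp only [eps, Bool.false_eq_true, if_false, false_implies, and_true, false_iff, not_lt,
        neg_neg, one_mul]
    · simp only [eps, if_true, true_implies, true_iff, neg_mul, one_mul, Left.nonneg_neg_iff,
        Left.neg_pos_iff]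
      exact ⟨fun h => h.2, fun h => ⟨h.le, h⟩⟩
  constructor
  · intro h j
    exact ⟨(h1 j).1 (h (.inl j)), (h2 j).1 (h (.inr j))⟩
  · rintro h (j | j)
    · exact (h1 j).2 (h j).1
    · exact (h2 j).2 (h j).2

/-- the meaning of `cert` -/
def Cert (p n : Fin s → Bool) (A : Fin s → Fin m → ℝ) (B : Fin s → ℝ) (μ ν : Fin s → ℝ) : Prop :=
  (∀ j, ¬ μ j < 0 ∧ ¬ ν j < 0) ∧
    (∀ i, ∑ j, (μ j * eps (p j) + ν j * -eps (n j)) * A j i = 0) ∧
    (∑ j, (μ j * eps (p j) + ν j * -eps (n j)) * B j < 0 ∨
      (¬ 0 < ∑ j, (μ j * eps (p j) + ν j * -eps (n j)) * B j ∧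
        ∃ j, (p j = true ∧ 0 < μ j) ∨ (n j = true ∧ 0 < ν j)))

theorem exists_cert (p n : Fin s → Bool) (A : Fin s → Fin m → ℝ) (B : Fin s → ℝ) :
    (∃ μ ν, Cert p n A B μ ν) ↔ ¬ ∃ Y, ∀ t, (cons p n A B t).Sat Y := by
  rw [Motz.motzkin]
  have e : ∀ (μ : Fin s ⊕ Fin s → ℝ) (f : Fin s → ℝ),
      ∑ j, (μ (.inl j) * eps (p j) + μ (.inr j) * -eps (n j)) * f j =
      ∑ j, μ (.inl j) * (eps (p j) * f j) + ∑ j, μ (.inr j) * (-eps (n j) * f j) := by
    intro μ f
    rw [← Finset.sum_add_distrib]
    exact Finset.sum_congr rfl fun j _ => by ring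
  constructor
  · rintro ⟨μ, ν, h1, h2, h3⟩
    refine ⟨Sum.elim μ ν, ?_, fun i => ?_, ?_⟩
    · rintro (j | j)
      · exact not_lt.1 (h1 j).1
      · exact not_lt.1 (h1 j).2
    · have := e (Sum.elim μ ν) (fun j => A j i)
      simp only [Sum.elim_inl, Sum.elim_inr] at this
      rw [Fintype.sum_sum_type]
      simp only [cons, Sum.elim_inl, Sum.elim_inr]
      rw [← this]
      exact h2 i
    · have := e (Sum.elim μ ν) B
      simp only [Sum.elim_inl, Sum.elim_inr] at this
      rw [Fintype.sum_sum_type]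
      simp only [cons, Sum.elim_inl, Sum.elim_inr]
      rw [← this]
      rcases h3 with h3 | ⟨h3, j, h4⟩
      · exact Or.inl h3
      · refine Or.inr ⟨not_lt.1 h3, ?_⟩
        rcases h4 with h4 | h4
        · exact ⟨.inl j, h4⟩
        · exact ⟨.inr j, h4⟩
  · rintro ⟨μ, h1, h2, h3⟩
    refine ⟨fun j => μ (.inl j), fun j => μ (.inr j), fun j => ⟨not_lt.2 (h1 _), not_lt.2 (h1 _)⟩,
      fun i => ?_, ?_⟩
    · rw [e μ fun j => A j i]
      have := h2 i
      rw [Fintype.sum_sum_type] at this
      exact this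
    · rw [e μ B]
      rw [Fintype.sum_sum_type] at h3
      rcases h3 with h3 | ⟨h3, t, h4⟩
      · exact Or.inl h3
      · refine Or.inr ⟨not_lt.2 h3, ?_⟩
        rcases t with j | j
        · exact ⟨j, Or.inl h4⟩
        · exact ⟨j, Or.inr h4⟩

theorem holds_cert (A : Fin s → Fin m → Tm (Fin a ⊕ Fin k)) (B : Fin s → Tm (Fin a ⊕ Fin k))
    (X : Fin a → ℝ) (β : Fin (k + (s + s)) → Bool) (Z : Fin (c + (s + s)) → ℝ) :
    (cert (c := c) A B).Holds (Sum.elim X (Sum.elim (real β) Z)) ↔
      Cert (fun j => β (Fin.natAdd k (Fin.castAdd s j))) (fun j => β (Fin.natAdd k (Fin.natAdd s j)))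
        (fun j i => (A j i).val (Sum.elim X (real fun i => β (Fin.castAdd _ i))))
        (fun j => (B j).val (Sum.elim X (real fun i => β (Fin.castAdd _ i))))
        (fun j => Z (Fin.natAdd c (Fin.castAdd s j))) (fun j => Z (Fin.natAdd c (Fin.natAdd s j))) := by
  have h1 : ∀ t : Tm (Fin a ⊕ Fin k), (t.map (emb (s := s) (c := c))).val
      (Sum.elim X (Sum.elim (real β) Z)) =
      t.val (Sum.elim X (real fun i => β (Fin.castAdd _ i))) := by
    intro t
    rw [Tm.val_map]
    congr 1
    funext v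
    rcases v with v | v <;> rfl
  have h2 : ∀ p : Bool, (if p = true then (1 : ℝ) else 0) + ((if p = true then (1 : ℝ) else 0) +
      ((-1 : ℤ) : ℝ)) = eps p := by
    intro p
    cases p <;> simp [eps]
  have h3 : ∀ p : Bool, (((1 : ℤ) : ℝ) + ((-1 : ℤ) : ℝ) * ((if p = true then (1 : ℝ) else 0) +
      (if p = true then (1 : ℝ) else 0))) = -eps p := by
    intro p
    cases p <;> norm_num [eps]
  have h4 : ∀ j : Fin s, (thT (a := a) (k := k) (c := c) j).val
      (Sum.elim X (Sum.elim (real β) Z)) =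
      Z (Fin.natAdd c (Fin.castAdd s j)) * eps (β (Fin.natAdd k (Fin.castAdd s j))) +
        Z (Fin.natAdd c (Fin.natAdd s j)) * -eps (β (Fin.natAdd k (Fin.natAdd s j))) := by
    intro j
    simp only [thT, theta, pT, nT, muT, nuT, Tm.val, Sum.elim_inl, Sum.elim_inr, real, h2, h3]
  have h5 : ∀ p : Bool, ((if p = true then (1 : ℝ) else 0) = ((1 : ℤ) : ℝ)) ↔ p = true := by
    intro p
    cases p <;> simp
  simp only [cert, certF, Fml.Holds, holds_bigAnd, holds_bigOr, val_bigSum, List.mem_map,
    List.mem_finRange, true_and, forall_exists_index, forall_apply_eq_imp_iff,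
    exists_exists_eq_and, List.map_map, Function.comp_def, Tm.val, h1, h4, ← Fin.sum_univ_def,
    Cert, muT, nuT, pT, nT, Sum.elim_inl, Sum.elim_inr, Int.cast_zero]
  simp only [real, h5]

/-! ### Polynomial time -/

theorem boolOf_holds (S : AffSentence) : (boolOf S).Holds ↔ S.Holds := by
  unfold Sentence.Holds EBE AffSentence.Holds
  change (∃ X : Fin S.a → ℝ, ∀ β : Fin (S.k + (S.s + S.s)) → Bool,
    ∃ Z : Fin (S.c + (S.s + S.s)) → ℝ,
      ((S.Ψ.map embM).Holds (Sum.elim X (Sum.elim (real β) Z)) ∨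
        (cert S.A S.B).Holds (Sum.elim X (Sum.elim (real β) Z)))) ↔ _
  refine exists_congr fun X => ?_
  have hM : ∀ (β : Fin (S.k + (S.s + S.s)) → Bool) (Z : Fin (S.c + (S.s + S.s)) → ℝ),
      (S.Ψ.map embM).Holds (Sum.elim X (Sum.elim (real β) Z)) ↔
      S.Ψ.Holds (Sum.elim X (Sum.elim (real β) fun l => Z (Fin.castAdd _ l))) := by
    intro β Z
    rw [Fml.holds_map]
    have : (Sum.elim X (Sum.elim (real β) Z)) ∘
        (embM : Fin S.a ⊕ (Fin (S.k + (S.s + S.s)) ⊕ Fin S.c) → Va S.a S.k S.s S.c) =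
        Sum.elim X (Sum.elim (real β) fun l => Z (Fin.castAdd _ l)) := by
      funext v
      rcases v with v | v | v <;> rfl
    rw [this]
  constructor
  · intro h b Y
    obtain ⟨Z, hZ⟩ := h (signBits b (S.ell X b Y))
    rw [hM, holds_cert] at hZ
    rcases hZ with hZ | hZ
    · exact ⟨_, hZ⟩
    · exfalso
      refine (exists_cert _ _ _ _).1 ⟨_, _, hZ⟩ ⟨Y, (sat_cons _ _ _ _ _).2 fun j => ?_⟩
      simp only [signBits, Fin.addCases_left, Fin.addCases_right, decide_eq_true_eq]
      exact ⟨Iff.rfl, Iff.rfl⟩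
  · intro h β
    by_cases hc : ∃ Y, ∀ t, (cons (fun j => β (Fin.natAdd S.k (Fin.castAdd S.s j)))
        (fun j => β (Fin.natAdd S.k (Fin.natAdd S.s j)))
        (fun j i => (S.A j i).val (Sum.elim X (real fun i => β (Fin.castAdd _ i))))
        (fun j => (S.B j).val (Sum.elim X (real fun i => β (Fin.castAdd _ i)))) t).Sat Y
    · obtain ⟨Y, hY⟩ := hc
      rw [sat_cons] at hY
      obtain ⟨Z, hZ⟩ := h (fun i => β (Fin.castAdd _ i)) Y
      have hβ : signBits (fun i => β (Fin.castAdd _ i))
          (S.ell X (fun i => β (Fin.castAdd _ i)) Y) = β := by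
        funext i
        refine Fin.addCases (fun i => ?_) (fun i => ?_) i
        · simp only [signBits, Fin.addCases_left]
        · refine Fin.addCases (fun j => ?_) (fun j => ?_) i
          · simp only [signBits, Fin.addCases_left, Fin.addCases_right]
            rw [Bool.eq_iff_iff, decide_eq_true_eq]
            exact (hY j).1.symm
          · simp only [signBits, Fin.addCases_right]
            rw [Bool.eq_iff_iff, decide_eq_true_eq]
            exact (hY j).2.symm
      rw [hβ] at hZ
      refine ⟨Fin.addCases Z fun _ => 0, Or.inl ?_⟩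
      rw [hM]
      simp only [Fin.addCases_left]
      exact hZ
    · obtain ⟨μ, ν, hμ⟩ := (exists_cert _ _ _ _).2 hc
      refine ⟨Fin.addCases (fun _ => 0) (Fin.addCases μ ν), Or.inr ?_⟩
      rw [holds_cert]
      simp only [Fin.addCases_left, Fin.addCases_right]
      exact hμ

end

/-! ### The words -/

instance : TEnc AffSentence := ⟨fun S => TEnc.enc (S.a, (S.k, (S.m, (S.s, (S.c,
  (S.coefs, (S.consts, S.word)))))))⟩

/-- the coefficient of `Y_i` in `ℓ_j` -/
def cA (S : AffSentence) (j i : ℕ) : Tm ℕ :=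
  if h : j < S.s ∧ i < S.m then (S.A ⟨j, h.1⟩ ⟨i, h.2⟩).map (enumQ S.a S.k) else .const 0

/-- the constant of `ℓ_j` -/
def cB (S : AffSentence) (j : ℕ) : Tm ℕ :=
  if h : j < S.s then (S.B ⟨j, h⟩).map (enumQ S.a S.k) else .const 0

theorem cA_word (S : AffSentence) (j i : ℕ) :
    tmW (cA S j i) = (S.coefs.getD j []).getD i (tmW (.const 0)) := by
  unfold cA AffSentence.coefs
  by_cases hj : j < S.s
  · by_cases hi : i < S.m
    · simp [hj, hi, List.getD_eq_getElem?_getD]
    · simp [hj, hi, List.getD_eq_getElem?_getD]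
  · simp [hj, List.getD_eq_getElem?_getD]

theorem cB_word (S : AffSentence) (j : ℕ) :
    tmW (cB S j) = S.consts.getD j (tmW (.const 0)) := by
  unfold cB AffSentence.consts
  by_cases hj : j < S.s
  · simp [hj, List.getD_eq_getElem?_getD]
  · simp [hj, List.getD_eq_getElem?_getD]

theorem bigSum_word (l : List (Tm ℕ)) : tmW (bigSum l) =
    l.flatMap tmW ++ (tmW (.const 0) ++ List.replicate l.length (2, (0, []))) := by
  induction l with
  | nil => simp [bigSum]
  | cons t l ih =>
    have h : tmW (bigSum (t :: l)) = tmW t ++ (tmW (bigSum l) ++ [(2, (0, []))]) := rfl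
    rw [h, ih, List.length_cons, List.replicate_succ', List.flatMap_cons]
    simp only [List.append_assoc]

theorem pt_bigSum {α : Type} [TEnc α] {n : α → ℕ} (hn : PT n) {f : α × ℕ → Tm ℕ}
    (hf : PT fun p => tmW (f p)) :
    PT fun x => tmW (bigSum ((List.range (n x)).map fun i => f (x, i))) :=
  (PT.append (PT.flatMap (PT.range hn) hf) (PT.append (PT.const (tmW (.const 0)))
    (PT.replicate hn (PT.const (2, (0, [])))))).congr fun x => by
      rw [bigSum_word, List.flatMap_map, List.length_map, List.length_range]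

theorem pt_theta {α : Type} [TEnc α] {p n μ ν : α → Tm ℕ} (hp : PT fun x => tmW (p x))
    (hn : PT fun x => tmW (n x)) (hμ : PT fun x => tmW (μ x)) (hν : PT fun x => tmW (ν x)) :
    PT fun x => tmW (theta (p x) (n x) (μ x) (ν x)) :=
  pt_add (pt_mul hμ (pt_add hp (pt_add hp (pt_const _))))
    (pt_mul hν (pt_add (pt_const _) (pt_mul (pt_const _) (pt_add hn hn))))

/-- numbers of the new variables -/
def pN (S : AffSentence) (j : ℕ) : Tm ℕ := .var (S.a + (S.k + j))

/-- numbers of the new variables -/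
def nN (S : AffSentence) (j : ℕ) : Tm ℕ := .var (S.a + (S.k + (S.s + j)))

/-- numbers of the new variables -/
def muN (S : AffSentence) (j : ℕ) : Tm ℕ := .var (S.a + ((S.k + (S.s + S.s)) + (S.c + j)))

/-- numbers of the new variables -/
def nuN (S : AffSentence) (j : ℕ) : Tm ℕ := .var (S.a + ((S.k + (S.s + S.s)) + (S.c + (S.s + j))))

/-- the total multiplier -/
def thN (S : AffSentence) (j : ℕ) : Tm ℕ := theta (pN S j) (nN S j) (muN S j) (nuN S j)

/-- the certificate with numbered variables -/
def certN (S : AffSentence) : Fml ℕ :=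
  certF
    (bigAnd ((List.range S.s).map fun j =>
      .and (.not (.lt (muN S j) (.const 0))) (.not (.lt (nuN S j) (.const 0)))))
    (bigAnd ((List.range S.m).map fun i =>
      .eq (bigSum ((List.range S.s).map fun j => .mul (thN S j) (cA S j i))) (.const 0)))
    (bigSum ((List.range S.s).map fun j => .mul (thN S j) (cB S j)))
    (bigOr ((List.range S.s).map fun j =>
      .or (.and (.eq (pN S j) (.const 1)) (.lt (.const 0) (muN S j)))
        (.and (.eq (nN S j) (.const 1)) (.lt (.const 0) (nuN S j)))))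

theorem bigSum_map {V W : Type} (f : V → W) (l : List (Tm V)) :
    (bigSum l).map f = bigSum (l.map fun t => t.map f) := by
  induction l with
  | nil => rfl
  | cons t l ih => simp only [bigSum, Tm.map, ih, List.map_cons]

theorem certF_map {V W : Type} (f : V → W) (nn lin : Fml V) (cst : Tm V) (str : Fml V) :
    (certF nn lin cst str).map f = certF (nn.map f) (lin.map f) (cst.map f) (str.map f) := rfl

theorem theta_map {V W : Type} (f : V → W) (p n μ ν : Tm V) :
    (theta p n μ ν).map f = theta (p.map f) (n.map f) (μ.map f) (ν.map f) := rfl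

theorem boolOf_word (S : AffSentence) : (boolOf S).word =
    fmlW (.or (S.Ψ.map (enumS S.a (S.k + (S.s + S.s)) S.c)) (certN S)) := by
  have hq : ∀ t : Tm (Fin S.a ⊕ Fin S.k), (t.map (emb (s := S.s) (c := S.c))).map
      (enumS S.a (S.k + (S.s + S.s)) (S.c + (S.s + S.s))) = t.map (enumQ S.a S.k) := by
    intro t
    rw [tm_map_map]
    congr 1
    funext v
    rcases v with v | v <;> rfl
  have hΨ : (S.Ψ.map (embM (a := S.a) (k := S.k) (s := S.s) (c := S.c))).map
      (enumS S.a (S.k + (S.s + S.s)) (S.c + (S.s + S.s))) =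
      S.Ψ.map (enumS S.a (S.k + (S.s + S.s)) S.c) := by
    rw [fml_map_map]
    congr 1
    funext v
    rcases v with v | v | v <;> rfl
  have hθ : ∀ j : Fin S.s, (thT (a := S.a) (k := S.k) (c := S.c) j).map
      (enumS S.a (S.k + (S.s + S.s)) (S.c + (S.s + S.s))) = thN S j := fun j => rfl
  have hc : (cert (c := S.c) S.A S.B).map
      (enumS S.a (S.k + (S.s + S.s)) (S.c + (S.s + S.s))) = certN S := by
    rw [cert, certN, certF_map]
    simp only [bigAnd_map, bigOr_map, bigSum_map, List.map_map]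
    have e1 : ((List.finRange S.s).map ((fun t : Tm (Va S.a S.k S.s S.c) =>
        t.map (enumS S.a (S.k + (S.s + S.s)) (S.c + (S.s + S.s)))) ∘
          fun j => .mul (thT j) ((S.B j).map emb))) =
        (List.range S.s).map fun j => .mul (thN S j) (cB S j) := by
      refine finRange_map _ _ _ fun j => ?_
      simp only [Function.comp_apply, Tm.map, hq, hθ, cB, Fin.is_lt, dif_pos, Fin.eta]
    have e2 : ∀ i : Fin S.m, ((List.finRange S.s).map ((fun t : Tm (Va S.a S.k S.s S.c) =>
        t.map (enumS S.a (S.k + (S.s + S.s)) (S.c + (S.s + S.s)))) ∘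
          fun j => .mul (thT j) ((S.A j i).map emb))) =
        (List.range S.s).map fun j => .mul (thN S j) (cA S j i) := by
      intro i
      refine finRange_map _ _ _ fun j => ?_
      simp only [Function.comp_apply, Tm.map, hq, hθ, cA, Fin.is_lt, and_self, dif_pos, Fin.eta]
    rw [e1]
    refine congrArg₂ Fml.and ?_ (congrArg₂ Fml.and ?_ (congrArg₂ Fml.or rfl
      (congrArg₂ Fml.and rfl ?_)))
    · exact congrArg bigAnd (finRange_map _ _ _ fun j => rfl)
    · refine congrArg bigAnd (finRange_map _ _ _ fun i => ?_)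
      simp only [Function.comp_apply, Fml.map, bigSum_map, List.map_map, e2]
      rfl
    · exact congrArg bigOr (finRange_map _ _ _ fun j => rfl)
  have h : (boolOf S).word = fmlW (.or
      ((S.Ψ.map (embM (a := S.a) (k := S.k) (s := S.s) (c := S.c))).map
        (enumS S.a (S.k + (S.s + S.s)) (S.c + (S.s + S.s))))
      ((cert (c := S.c) S.A S.B).map (enumS S.a (S.k + (S.s + S.s)) (S.c + (S.s + S.s))))) := rfl
  rw [h, hΨ, hc]

theorem pt_boolOf : PT boolOf := by
  have h0 : PT fun S : AffSentence => (S.a, (S.k, (S.m, (S.s, (S.c,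
      (S.coefs, (S.consts, S.word))))))) := PT.of_code fun _ => rfl
  have ha : PT fun S : AffSentence => S.a := PT.fst.comp h0
  have h1 : PT fun S : AffSentence => (S.k, (S.m, (S.s, (S.c,
      (S.coefs, (S.consts, S.word)))))) := PT.snd.comp h0
  have hk : PT fun S : AffSentence => S.k := PT.fst.comp h1
  have h2 : PT fun S : AffSentence => (S.m, (S.s, (S.c, (S.coefs, (S.consts, S.word))))) :=
    PT.snd.comp h1
  have hm : PT fun S : AffSentence => S.m := PT.fst.comp h2
  have h3 : PT fun S : AffSentence => (S.s, (S.c, (S.coefs, (S.consts, S.word)))) :=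
    PT.snd.comp h2
  have hs : PT fun S : AffSentence => S.s := PT.fst.comp h3
  have h4 : PT fun S : AffSentence => (S.c, (S.coefs, (S.consts, S.word))) := PT.snd.comp h3
  have hc : PT fun S : AffSentence => S.c := PT.fst.comp h4
  have h5 : PT fun S : AffSentence => (S.coefs, (S.consts, S.word)) := PT.snd.comp h4
  have hA : PT fun S : AffSentence => S.coefs := PT.fst.comp h5
  have h6 : PT fun S : AffSentence => (S.consts, S.word) := PT.snd.comp h5
  have hB : PT fun S : AffSentence => S.consts := PT.fst.comp h6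
  have hw : PT fun S : AffSentence => fmlW (S.Ψ.map (enumS S.a (S.k + (S.s + S.s)) S.c)) :=
    PT.snd.comp h6
  have hss : PT fun S : AffSentence => S.s + S.s := PT.add hs hs
  have hkss : PT fun S : AffSentence => S.k + (S.s + S.s) := PT.add hk hss
  have p1 : PT fun p : AffSentence × ℕ => p.1 := PT.fst
  have wp : PT fun p : AffSentence × ℕ => tmW (pN p.1 p.2) :=
    pt_var (PT.add (ha.comp p1) (PT.add (hk.comp p1) PT.snd))
  have wn : PT fun p : AffSentence × ℕ => tmW (nN p.1 p.2) :=
    pt_var (PT.add (ha.comp p1) (PT.add (hk.comp p1) (PT.add (hs.comp p1) PT.snd)))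
  have wμ : PT fun p : AffSentence × ℕ => tmW (muN p.1 p.2) :=
    pt_var (PT.add (ha.comp p1) (PT.add (hkss.comp p1) (PT.add (hc.comp p1) PT.snd)))
  have wν : PT fun p : AffSentence × ℕ => tmW (nuN p.1 p.2) :=
    pt_var (PT.add (ha.comp p1) (PT.add (hkss.comp p1) (PT.add (hc.comp p1)
      (PT.add (hs.comp p1) PT.snd))))
  have wθ : PT fun p : AffSentence × ℕ => tmW (thN p.1 p.2) := pt_theta wp wn wμ wν
  have wB : PT fun p : AffSentence × ℕ => tmW (cB p.1 p.2) :=
    (PT.getD PT.snd (hB.comp p1) (PT.const (tmW (.const 0)))).congr fun p => cB_word p.1 p.2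
  have wA : PT fun q : (AffSentence × ℕ) × ℕ => tmW (cA q.1.1 q.2 q.1.2) :=
    (PT.getD (PT.snd.comp PT.fst) (PT.getD PT.snd (hA.comp (PT.fst.comp PT.fst))
      (PT.const ([] : List (List Tok)))) (PT.const (tmW (.const 0)))).congr
        fun q => cA_word q.1.1 q.2 q.1.2
  have q1 : PT fun q : (AffSentence × ℕ) × ℕ => (q.1.1, q.2) := PT.pair (PT.fst.comp PT.fst) PT.snd
  have wθ' : PT fun q : (AffSentence × ℕ) × ℕ => tmW (thN q.1.1 q.2) := wθ.comp q1
  have c1 : PT fun S : AffSentence => fmlW (certN S) := by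
    have d1 : PT fun S : AffSentence => fmlW (bigAnd ((List.range S.s).map fun j =>
        .and (.not (.lt (muN S j) (.const 0))) (.not (.lt (nuN S j) (.const 0))))) :=
      pt_bigAnd hs (pt_and (pt_not (pt_lt wμ (pt_const 0))) (pt_not (pt_lt wν (pt_const 0))))
    have d2 : PT fun S : AffSentence => fmlW (bigAnd ((List.range S.m).map fun i =>
        .eq (bigSum ((List.range S.s).map fun j => .mul (thN S j) (cA S j i))) (.const 0))) := by
      refine pt_bigAnd hm (f := fun p : AffSentence × ℕ => .eq (bigSum ((List.range p.1.s).map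
        fun j => .mul (thN p.1 j) (cA p.1 j p.2))) (.const 0)) (pt_eq ?_ (pt_const 0))
      exact pt_bigSum (hs.comp p1) (f := fun q : (AffSentence × ℕ) × ℕ =>
        .mul (thN q.1.1 q.2) (cA q.1.1 q.2 q.1.2)) (pt_mul wθ' wA)
    have d3 : PT fun S : AffSentence => tmW (bigSum ((List.range S.s).map fun j =>
        .mul (thN S j) (cB S j))) := pt_bigSum hs (pt_mul wθ wB)
    have d4 : PT fun S : AffSentence => fmlW (bigOr ((List.range S.s).map fun j =>
        .or (.and (.eq (pN S j) (.const 1)) (.lt (.const 0) (muN S j)))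
          (.and (.eq (nN S j) (.const 1)) (.lt (.const 0) (nuN S j))))) :=
      pt_bigOr hs (pt_or (pt_and (pt_eq wp (pt_const 1)) (pt_lt (pt_const 0) wμ))
        (pt_and (pt_eq wn (pt_const 1)) (pt_lt (pt_const 0) wν)))
    exact pt_and d1 (pt_and d2 (pt_or (pt_lt d3 (pt_const 0))
      (pt_and (pt_not (pt_lt (pt_const 0) d3)) d4)))
  refine ptc (PT.pair ha (PT.pair hkss (PT.pair (PT.add hc hss) (pt_or hw c1)))) fun S => ?_
  have h7 : code (boolOf S) = code (S.a, (S.k + (S.s + S.s), (S.c + (S.s + S.s),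
    (boolOf S).word))) := rfl
  rw [h7, boolOf_word]

end Pool.Agent.Lib.VC77.AF
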