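import Pool.Agent.Lib.VC77.Aff

/-!
# Affine sentences: injectivity of the code, and the trivial inclusion
-/

set_option autoImplicit false

namespace Pool.Agent.Lib.VC77.AF

open Pool.Agent.Lib.PolyFun
open TK

/-! ### The code is injective -/

theorem tmW_injective : Function.Injective tmW := by
  intro s t h
  have h1 := run_tm s [] []
  rw [h, run_tm] at h1
  simpa using h1.symm

theorem enumQ_injective (a k : ℕ) : Function.Injective (enumQ a k) := by
  rintro (j | i) (j' | i') h <;> simp only [enumQ, Sum.elim_inl, Sum.elim_inr] at h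
  · rw [Fin.ext h]
  · omega
  · omega
  · rw [Fin.ext (by omega : (i : ℕ) = i')]

theorem ei_word : EI (List Tok) := ei_list ei_tok

theorem map_finRange_injective {β : Type} {n : ℕ} {f g : Fin n → β}
    (h : (List.finRange n).map f = (List.finRange n).map g) : f = g := by
  funext i
  have h1 := List.map_inj_left.1 h
  exact h1 i (List.mem_finRange i)

theorem code_affSentence_injective : Function.Injective (code : AffSentence → List Bool) := by
  apply EI.code
  rintro ⟨a, k, m, s, c, A, B, Ψ⟩ ⟨a', k', m', s', c', A', B', Ψ'⟩ h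
  have h1 := ei_pair ei_nat (ei_pair ei_nat (ei_pair ei_nat (ei_pair ei_nat (ei_pair ei_nat
    (ei_pair (ei_list (ei_list ei_word)) (ei_pair (ei_list ei_word) ei_word)))))) h
  simp only [Prod.mk.injEq] at h1
  obtain ⟨rfl, rfl, rfl, rfl, rfl, h2, h3, h4⟩ := h1
  have e1 : A = A' := by
    funext j i
    have a1 := congrFun (map_finRange_injective h2) j
    have a2 := congrFun (map_finRange_injective a1) i
    exact tm_map_injective (enumQ_injective a k) (tmW_injective a2)
  have e2 : B = B' := by
    funext j
    have a1 := congrFun (map_finRange_injective h3) j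
    exact tm_map_injective (enumQ_injective a k) (tmW_injective a1)
  have e3 : Ψ = Ψ' := fml_map_injective (enumS_injective _ _ _) (fmlW_injective h4)
  rw [e1, e2, e3]

/-! ### The trivial inclusion -/

/-- A sentence with a Boolean universal block, without variables `Y`. -/
def affOf (s : Sentence) : AffSentence :=
  ⟨s.a, s.k, 0, 0, s.c, fun j => j.elim0, fun j => j.elim0, s.Φ⟩

theorem affOf_holds (s : Sentence) : (affOf s).Holds ↔ s.Holds := by
  obtain ⟨a, k, c, Φ⟩ := s
  unfold Sentence.Holds EBE AffSentence.Holds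
  change (∃ X : Fin a → ℝ, ∀ b : Fin k → Bool, ∀ Y : Fin 0 → ℝ, ∃ Z : Fin c → ℝ,
    Φ.Holds (Sum.elim X (Sum.elim (real (signBits (s := 0) b
      ((affOf ⟨a, k, c, Φ⟩).ell X b Y))) Z))) ↔ _
  refine exists_congr fun X => forall_congr' fun b => ?_
  have h : ∀ l : Fin 0 → ℝ, signBits (s := 0) b l = b := by
    intro l
    funext i
    have h1 := Fin.addCases_left (m := k) (n := 0 + 0) (motive := fun _ => Bool) (left := b)
      (right := Fin.addCases (fun j => decide (0 < l j)) fun j => decide (l j < 0)) i
    exact (by simpa [signBits] using h1)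
  constructor
  · intro h1
    obtain ⟨Z, hZ⟩ := h1 Fin.elim0
    refine ⟨Z, ?_⟩
    have h2 := h ((affOf ⟨a, k, c, Φ⟩).ell X b Fin.elim0)
    rw [h2] at hZ
    exact hZ
  · rintro ⟨Z, hZ⟩ Y
    refine ⟨Z, ?_⟩
    have h2 := h ((affOf ⟨a, k, c, Φ⟩).ell X b Y)
    rw [h2]
    exact hZ

theorem pt_affOf : PT affOf := by
  have h0 : PT fun s : Sentence => (s.a, (s.k, (s.c, s.word))) := PT.of_code fun _ => rfl
  have ha : PT fun s : Sentence => s.a := PT.fst.comp h0
  have hk : PT fun s : Sentence => s.k := PT.fst.comp (PT.snd.comp h0)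
  have hc : PT fun s : Sentence => s.c := PT.fst.comp (PT.snd.comp (PT.snd.comp h0))
  have hw : PT fun s : Sentence => s.word := PT.snd.comp (PT.snd.comp (PT.snd.comp h0))
  refine ptc (h := fun s : Sentence => (s.a, (s.k, ((0 : ℕ), ((0 : ℕ), (s.c,
    (([] : List (List (List Tok))), (([] : List (List Tok)), s.word)))))))) ?_ fun s => rfl
  exact PT.pair ha (PT.pair hk (PT.pair (PT.const 0) (PT.pair (PT.const 0) (PT.pair hc
    (PT.pair (PT.const []) (PT.pair (PT.const []) hw))))))

end Pool.Agent.Lib.VC77.AF
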