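import Mathlib

/-!
# Definitions: formulas, families of sets, sentences, codes

`Tm V` and `Fml V` are the terms and the quantifier-free formulas in the language of ordered fields
with integer constants and variables in `V`.
-/

set_option autoImplicit false

namespace Pool.Agent.Lib.VC77

/-- Terms: variables, integer constants, sums and products. -/
inductive Tm (V : Type) : Type
  | var (v : V) : Tm V
  | const (z : ℤ) : Tm V
  | add (s t : Tm V) : Tm V
  | mul (s t : Tm V) : Tm V

/-- Quantifier-free formulas. -/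
inductive Fml (V : Type) : Type
  | eq (s t : Tm V) : Fml V
  | lt (s t : Tm V) : Fml V
  | not (φ : Fml V) : Fml V
  | and (φ ψ : Fml V) : Fml V
  | or (φ ψ : Fml V) : Fml V

/-- The value of a term. -/
def Tm.val {V : Type} (ρ : V → ℝ) : Tm V → ℝ
  | .var v => ρ v
  | .const z => z
  | .add s t => s.val ρ + t.val ρ
  | .mul s t => s.val ρ * t.val ρ

/-- The truth of a formula. -/
def Fml.Holds {V : Type} (ρ : V → ℝ) : Fml V → Prop
  | .eq s t => s.val ρ = t.val ρ
  | .lt s t => s.val ρ < t.val ρ
  | .not φ => ¬ φ.Holds ρ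
  | .and φ ψ => φ.Holds ρ ∧ ψ.Holds ρ
  | .or φ ψ => φ.Holds ρ ∨ ψ.Holds ρ

/-- `φ (x, y)` is true. -/
def Fml.At {n m : ℕ} (φ : Fml (Fin n ⊕ Fin m)) (x : Fin n → ℝ) (y : Fin m → ℝ) : Prop :=
  φ.Holds (Sum.elim x y)

/-- The family of the sets `{x | φ (x, y)}` has Vapnik-Chervonenkis dimension at least `k`: some
`k`-point set `P` is shattered. -/
def VCGe {n m : ℕ} (φ : Fml (Fin n ⊕ Fin m)) (k : ℕ) : Prop :=
  ∃ P : Finset (Fin n → ℝ), P.card = k ∧
    ∀ P' ⊆ P, ∃ y : Fin m → ℝ, ∀ x ∈ P, φ.At x y ↔ x ∈ P'

/-- The sentence `∃ X ∈ ℝ ^ a, ∀ b ∈ {0, 1} ^ k, ∃ Z ∈ ℝ ^ c, Φ (X, b, Z)`. -/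
def EBE {a k c : ℕ} (Φ : Fml (Fin a ⊕ (Fin k ⊕ Fin c))) : Prop :=
  ∃ X : Fin a → ℝ, ∀ b : Fin k → Bool, ∃ Z : Fin c → ℝ,
    Φ.Holds (Sum.elim X (Sum.elim (fun i => if b i then 1 else 0) Z))

/-- renaming of variables in terms -/
def Tm.map {V W : Type} (f : V → W) : Tm V → Tm W
  | .var v => .var (f v)
  | .const z => .const z
  | .add s t => .add (s.map f) (t.map f)
  | .mul s t => .mul (s.map f) (t.map f)

/-- renaming of variables in formulas -/
def Fml.map {V W : Type} (f : V → W) : Fml V → Fml W
  | .eq s t => .eq (s.map f) (t.map f)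
  | .lt s t => .lt (s.map f) (t.map f)
  | .not φ => .not (φ.map f)
  | .and φ ψ => .and (φ.map f) (ψ.map f)
  | .or φ ψ => .or (φ.map f) (ψ.map f)

/-! ### Codes of numbers, pairs and lists

Words over `{0, 1}` that describe binary trees: `0` is the empty tree and `1 u v` is the tree with
the subtrees `u` and `v`. -/

/-- the code of a natural number (unary) -/
def cNat : ℕ → List Bool
  | 0 => [false]
  | n + 1 => true :: false :: cNat n

/-- the code of a pair -/
def cPair (x y : List Bool) : List Bool := true :: (x ++ y)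

/-- the code of a list -/
def cList : List (List Bool) → List Bool
  | [] => [false]
  | x :: l => cPair x (cList l)

/-- the code of a bit -/
def cBit (b : Bool) : List Bool := if b then [true, false, false] else [false]

namespace TK

/-! ### Symbols -/

/-- A symbol: its kind, its number, its digits. -/
abbrev Tok : Type := ℕ × (ℕ × List Bool)

/-- the symbol of the integer constant `z`: a sign and the binary digits of `|z|` -/
def cTok (z : ℤ) : Tok := (1, ((if z < 0 then 1 else 0), z.natAbs.bits))

/-- The symbols of a term with numbered variables, in postfix order. -/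
def tmW : Tm ℕ → List Tok
  | .var v => [(0, (v, []))]
  | .const z => [cTok z]
  | .add s t => tmW s ++ (tmW t ++ [(2, (0, []))])
  | .mul s t => tmW s ++ (tmW t ++ [(3, (0, []))])

/-- The symbols of a formula with numbered variables, in postfix order. -/
def fmlW : Fml ℕ → List Tok
  | .eq s t => tmW s ++ (tmW t ++ [(4, (0, []))])
  | .lt s t => tmW s ++ (tmW t ++ [(5, (0, []))])
  | .not φ => fmlW φ ++ [(6, (0, []))]
  | .and φ ψ => fmlW φ ++ (fmlW ψ ++ [(7, (0, []))])
  | .or φ ψ => fmlW φ ++ (fmlW ψ ++ [(8, (0, []))])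

/-! ### Sentences and instances -/

/-- A sentence `∃ X ∈ ℝ ^ a, ∀ b ∈ {0, 1} ^ k, ∃ Z ∈ ℝ ^ c, Φ (X, b, Z)`. -/
structure Sentence where
  /-- the number of variables of the first block -/
  a : ℕ
  /-- the number of variables of the Boolean block -/
  k : ℕ
  /-- the number of variables of the last block -/
  c : ℕ
  /-- the matrix -/
  Φ : Fml (Fin a ⊕ (Fin k ⊕ Fin c))

/-- An instance of VC-SEMIALG: a formula `φ (x, y)`, `x ∈ ℝ ^ n`, `y ∈ ℝ ^ m`, and a number `k`. -/
structure Instance where
  /-- the dimension of the space -/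
  n : ℕ
  /-- the number of parameters -/
  m : ℕ
  /-- the threshold -/
  k : ℕ
  /-- the formula -/
  φ : Fml (Fin n ⊕ Fin m)

/-- The sentence is true. -/
def Sentence.Holds (s : Sentence) : Prop := EBE s.Φ

/-- The Vapnik-Chervonenkis dimension of the family is at least `k`. -/
def Instance.Yes (s : Instance) : Prop := VCGe s.φ s.k

/-- the numbers of the variables of a sentence -/
def enumS (a k c : ℕ) : Fin a ⊕ (Fin k ⊕ Fin c) → ℕ :=
  Sum.elim (fun j => j) (Sum.elim (fun i => a + i) fun l => a + (k + l))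

/-- the numbers of the variables of an instance -/
def enumI (n m : ℕ) : Fin n ⊕ Fin m → ℕ := Sum.elim (fun j => j) fun i => n + i

/-- the symbols of the matrix of a sentence -/
def Sentence.word (s : Sentence) : List Tok := fmlW (s.Φ.map (enumS s.a s.k s.c))

/-- the symbols of the formula of an instance -/
def Instance.word (s : Instance) : List Tok := fmlW (s.φ.map (enumI s.n s.m))

/-- the code of a symbol -/
def codeTok (t : Tok) : List Bool :=
  cPair (cNat t.1) (cPair (cNat t.2.1) (cList (t.2.2.map cBit)))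

/-- the code of a word -/
def codeW (w : List Tok) : List Bool := cList (w.map codeTok)

/-- The code of a sentence. -/
def Sentence.code (s : Sentence) : List Bool :=
  cPair (cNat s.a) (cPair (cNat s.k) (cPair (cNat s.c) (codeW s.word)))

/-- The code of an instance. -/
def Instance.code (s : Instance) : List Bool :=
  cPair (cNat s.n) (cPair (cNat s.m) (cPair (cNat s.k) (codeW s.word)))

end TK

namespace AF

open TK

/-- A sentence `∃ X ∈ ℝ ^ a, ∀ b ∈ {0, 1} ^ k, ∀ Y ∈ ℝ ^ m, ∃ Z ∈ ℝ ^ c, Ψ (X, b, σ, Z)`, where `σ`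
lists the bits `[ℓ_j > 0]` and then the bits `[ℓ_j < 0]`, `j < s`, for the affine functions
`ℓ_j (Y) = ∑ i, A j i * Y i + B j` of `Y`, whose coefficients are terms in `X` and `b`. -/
structure AffSentence where
  /-- the number of variables `X` -/
  a : ℕ
  /-- the number of Boolean variables `b` -/
  k : ℕ
  /-- the number of variables `Y` -/
  m : ℕ
  /-- the number of affine functions -/
  s : ℕ
  /-- the number of variables `Z` -/
  c : ℕ
  /-- the coefficients of the affine functions -/
  A : Fin s → Fin m → Tm (Fin a ⊕ Fin k)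
  /-- the constants of the affine functions -/
  B : Fin s → Tm (Fin a ⊕ Fin k)
  /-- the matrix -/
  Ψ : Fml (Fin a ⊕ (Fin (k + (s + s)) ⊕ Fin c))

/-- bits as real numbers -/
def real {k : ℕ} (b : Fin k → Bool) (i : Fin k) : ℝ := if b i then 1 else 0

/-- the value of the affine function `ℓ_j` -/
noncomputable def AffSentence.ell (S : AffSentence) (X : Fin S.a → ℝ) (b : Fin S.k → Bool)
    (Y : Fin S.m → ℝ) (j : Fin S.s) : ℝ :=
  ∑ i, (S.A j i).val (Sum.elim X (real b)) * Y i + (S.B j).val (Sum.elim X (real b))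

open Classical in
/-- `b`, then the bits `[l_j > 0]`, then the bits `[l_j < 0]` -/
noncomputable def signBits {k s : ℕ} (b : Fin k → Bool) (l : Fin s → ℝ) : Fin (k + (s + s)) → Bool :=
  Fin.addCases b (Fin.addCases (fun j => decide (0 < l j)) fun j => decide (l j < 0))

/-- The sentence is true. -/
def AffSentence.Holds (S : AffSentence) : Prop :=
  ∃ X : Fin S.a → ℝ, ∀ b : Fin S.k → Bool, ∀ Y : Fin S.m → ℝ, ∃ Z : Fin S.c → ℝ,
    S.Ψ.Holds (Sum.elim X (Sum.elim (real (signBits b (S.ell X b Y))) Z))

/-- the numbers of the variables of the coefficients -/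
def enumQ (a k : ℕ) : Fin a ⊕ Fin k → ℕ := Sum.elim (fun j => j) fun i => a + i

/-- the words of the coefficients -/
def AffSentence.coefs (S : AffSentence) : List (List (List Tok)) :=
  (List.finRange S.s).map fun j => (List.finRange S.m).map fun i =>
    tmW ((S.A j i).map (enumQ S.a S.k))

/-- the words of the constants -/
def AffSentence.consts (S : AffSentence) : List (List Tok) :=
  (List.finRange S.s).map fun j => tmW ((S.B j).map (enumQ S.a S.k))

/-- the word of the matrix -/
def AffSentence.word (S : AffSentence) : List Tok :=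
  fmlW (S.Ψ.map (enumS S.a (S.k + (S.s + S.s)) S.c))

/-- The code of an affine sentence. -/
def AffSentence.code (S : AffSentence) : List Bool :=
  cPair (cNat S.a) (cPair (cNat S.k) (cPair (cNat S.m) (cPair (cNat S.s) (cPair (cNat S.c)
    (cPair (cList (S.coefs.map fun l => cList (l.map codeW)))
      (cPair (cList (S.consts.map codeW)) (codeW S.word)))))))

end AF

namespace RC

open TK AF

/-- A sentence `∃ X ∈ ℝ ^ a, ∀ b ∈ {0, 1} ^ k, ∀ Y ∈ ℝ ^ m, D Y + E ≥ 0 → ∃ Z ∈ ℝ ^ c,
A Y + C Z + B ≥ 0`, where the entries of `D`, `E`, `A`, `C`, `B` are terms in `X` and `b`. -/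
structure RecSentence where
  /-- the number of variables `X` -/
  a : ℕ
  /-- the number of Boolean variables `b` -/
  k : ℕ
  /-- the number of variables `Y` -/
  m : ℕ
  /-- the number of variables `Z` -/
  c : ℕ
  /-- the number of inequalities of the domain -/
  p : ℕ
  /-- the number of inequalities of the recourse -/
  q : ℕ
  /-- the matrix of the domain -/
  D : Fin p → Fin m → Tm (Fin a ⊕ Fin k)
  /-- the constants of the domain -/
  E : Fin p → Tm (Fin a ⊕ Fin k)
  /-- the matrix of `Y` -/
  A : Fin q → Fin m → Tm (Fin a ⊕ Fin k)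
  /-- the matrix of `Z` -/
  C : Fin q → Fin c → Tm (Fin a ⊕ Fin k)
  /-- the constants -/
  B : Fin q → Tm (Fin a ⊕ Fin k)

/-- The sentence is true. -/
def RecSentence.Holds (S : RecSentence) : Prop :=
  ∃ X : Fin S.a → ℝ, ∀ b : Fin S.k → Bool, ∀ Y : Fin S.m → ℝ,
    (∀ i, 0 ≤ ∑ r, (S.D i r).val (Sum.elim X (real b)) * Y r +
      (S.E i).val (Sum.elim X (real b))) →
    ∃ Z : Fin S.c → ℝ, ∀ j, 0 ≤ ∑ r, (S.A j r).val (Sum.elim X (real b)) * Y r +
      ∑ l, (S.C j l).val (Sum.elim X (real b)) * Z l + (S.B j).val (Sum.elim X (real b))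

section

variable {a k p m : ℕ}

/-- the words of the entries of a matrix -/
def wordsM (M : Fin p → Fin m → Tm (Fin a ⊕ Fin k)) : List (List (List Tok)) :=
  (List.finRange p).map fun i => (List.finRange m).map fun j => tmW ((M i j).map (enumQ a k))

/-- the words of the entries of a vector -/
def wordsV (E : Fin p → Tm (Fin a ⊕ Fin k)) : List (List Tok) :=
  (List.finRange p).map fun i => tmW ((E i).map (enumQ a k))

end

/-- The code of a sentence with linear recourse. -/
def RecSentence.code (S : RecSentence) : List Bool :=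
  cPair (cNat S.a) (cPair (cNat S.k) (cPair (cNat S.m) (cPair (cNat S.c) (cPair (cNat S.p)
    (cPair (cNat S.q) (cPair (cList ((wordsM S.D).map fun l => cList (l.map codeW)))
      (cPair (cList ((wordsV S.E).map codeW))
        (cPair (cList ((wordsM S.A).map fun l => cList (l.map codeW)))
          (cPair (cList ((wordsM S.C).map fun l => cList (l.map codeW)))
            (cList ((wordsV S.B).map codeW)))))))))))

end RC

end Pool.Agent.Lib.VC77
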