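import Pool.Agent.Lib.VC77.RecP

/-!
# The codes agree with the codes by trees
-/

set_option autoImplicit false

namespace Pool.Agent.Lib.VC77

open Pool.Agent.Lib.PolyFun
open TK AF RC

theorem code_nat (n : ℕ) : code n = cNat n := by
  induction n with
  | zero => rfl
  | succ n ih => rw [code_succ, ih]; rfl

theorem code_list {α : Type} [TEnc α] (c : α → List Bool) (h : ∀ x, code x = c x) (l : List α) :
    code l = cList (l.map c) := by
  induction l with
  | nil => rfl
  | cons a l ih => rw [code_cons, ih, h]; rfl

theorem code_bit (b : Bool) : code b = cBit b := by cases b <;> rfl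

theorem code_pair' {α β : Type} [TEnc α] [TEnc β] (c : α → List Bool) (d : β → List Bool)
    (h : ∀ x, code x = c x) (h' : ∀ y, code y = d y) (x : α) (y : β) :
    code (x, y) = cPair (c x) (d y) := by rw [code_pair, h, h']; rfl

theorem code_tok (t : Tok) : code t = codeTok t := by
  obtain ⟨x, y, l⟩ := t
  rw [code_pair, code_pair, code_nat, code_nat, code_list cBit code_bit]
  rfl

theorem code_word (w : List Tok) : code w = codeW w := code_list codeTok code_tok w

theorem code_words (w : List (List Tok)) : code w = cList (w.map codeW) :=
  code_list codeW code_word w

theorem code_mat (w : List (List (List Tok))) :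
    code w = cList (w.map fun l => cList (l.map codeW)) :=
  code_list (fun l => cList (l.map codeW)) code_words w

theorem code_sentence : (code : Sentence → List Bool) = Sentence.code := by
  funext s
  change code (s.a, (s.k, (s.c, s.word))) = _
  rw [code_pair, code_pair, code_pair, code_nat, code_nat, code_nat, code_word]
  rfl

theorem code_instance : (code : Instance → List Bool) = Instance.code := by
  funext s
  change code (s.n, (s.m, (s.k, s.word))) = _
  rw [code_pair, code_pair, code_pair, code_nat, code_nat, code_nat, code_word]
  rfl

theorem code_aff : (code : AffSentence → List Bool) = AffSentence.code := by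
  funext s
  change code (s.a, (s.k, (s.m, (s.s, (s.c, (s.coefs, (s.consts, s.word))))))) = _
  simp only [code_pair, code_nat, code_word, code_words, code_mat]
  rfl

theorem code_rec : (code : RecSentence → List Bool) = RecSentence.code := by
  funext S
  change code (S.a, (S.k, (S.m, (S.c, (S.p, (S.q,
    (wordsM S.D, (wordsV S.E, (wordsM S.A, (wordsM S.C, wordsV S.B)))))))))) = _
  simp only [code_pair, code_nat, code_words, code_mat]
  rfl

end Pool.Agent.Lib.VC77
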