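import Pool.Agent.Lib.VC77.Base

/-!
# Definitions: sentences whose last two blocks are linear
-/

set_option autoImplicit false

namespace Pool.Agent.Lib.VC77.LI

open TK AF RC

/-- A sentence `∃ X ∈ ℝ ^ a, ∀ b ∈ {0, 1} ^ k, ∀ Y ∈ ℝ ^ m, ∃ Z ∈ ℝ ^ l, ∃ W ∈ ℝ ^ c,
Ψ (X, b, σ, W)`, where `σ` lists the bits `[ℓ_t > 0]` and then the bits `[ℓ_t < 0]`, `t < N`, for
the affine functions `ℓ_t (Y, Z) = ∑ i < m, A t i * Y i + A t m + ∑ q < l, D t q * Z q` of `(Y, Z)`,
whose coefficients are terms in `X` and `b`. -/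
structure LinSentence where
  /-- the number of variables `X` -/
  a : ℕ
  /-- the number of Boolean variables `b` -/
  k : ℕ
  /-- the number of variables `Y` -/
  m : ℕ
  /-- the number of variables `Z` -/
  l : ℕ
  /-- the number of affine functions -/
  N : ℕ
  /-- the number of variables `W` -/
  c : ℕ
  /-- the coefficients of `Y`, and the constants (last column) -/
  A : Fin N → Fin (m + 1) → Tm (Fin a ⊕ Fin k)
  /-- the coefficients of `Z` -/
  D : Fin N → Fin l → Tm (Fin a ⊕ Fin k)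
  /-- the matrix -/
  Ψ : Fml (Fin a ⊕ (Fin (k + (N + N)) ⊕ Fin c))

/-- the value of the affine function `ℓ_t` -/
noncomputable def LinSentence.ell (S : LinSentence) (X : Fin S.a → ℝ) (b : Fin S.k → Bool)
    (Y : Fin S.m → ℝ) (Z : Fin S.l → ℝ) (t : Fin S.N) : ℝ :=
  ∑ q, (S.D t q).val (Sum.elim X (real b)) * Z q +
    (∑ i : Fin S.m, (S.A t i.castSucc).val (Sum.elim X (real b)) * Y i +
      (S.A t (Fin.last S.m)).val (Sum.elim X (real b)))

/-- The sentence is true. -/
def LinSentence.Holds (S : LinSentence) : Prop :=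
  ∃ X : Fin S.a → ℝ, ∀ b : Fin S.k → Bool, ∀ Y : Fin S.m → ℝ,
    ∃ (Z : Fin S.l → ℝ) (W : Fin S.c → ℝ),
      S.Ψ.Holds (Sum.elim X (Sum.elim (real (signBits b (S.ell X b Y Z))) W))

/-- the symbols of the matrix -/
def LinSentence.word (S : LinSentence) : List Tok :=
  fmlW (S.Ψ.map (enumS S.a (S.k + (S.N + S.N)) S.c))

/-- The code of a linear sentence. -/
def LinSentence.code (S : LinSentence) : List Bool :=
  cPair (cNat S.a) (cPair (cNat S.k) (cPair (cNat S.m) (cPair (cNat S.l) (cPair (cNat S.N)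
    (cPair (cNat S.c) (cPair (cList ((wordsM S.A).map fun l => cList (l.map codeW)))
      (cPair (cList ((wordsM S.D).map fun l => cList (l.map codeW))) (codeW S.word))))))))

end Pool.Agent.Lib.VC77.LI
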