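import Pool.Agent.Lib.VC77.RecB

/-!
# Sentences with linear recourse: the words, polynomial time
-/

set_option autoImplicit false

namespace Pool.Agent.Lib.VC77.RC

open Pool.Agent.Lib.PolyFun
open TK AF

/-! ### The words -/

section

variable {a k p m : ℕ}

/-- the entries of a matrix, with numbered variables -/
def mN (M : Fin p → Fin m → Tm (Fin a ⊕ Fin k)) (i j : ℕ) : Tm ℕ :=
  if h : i < p ∧ j < m then (M ⟨i, h.1⟩ ⟨j, h.2⟩).map (enumQ a k) else .const 0

/-- the entries of a vector, with numbered variables -/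
def vN (E : Fin p → Tm (Fin a ⊕ Fin k)) (i : ℕ) : Tm ℕ :=
  if h : i < p then (E ⟨i, h⟩).map (enumQ a k) else .const 0

theorem mN_word (M : Fin p → Fin m → Tm (Fin a ⊕ Fin k)) (i j : ℕ) :
    tmW (mN M i j) = ((wordsM M).getD i []).getD j (tmW (.const 0)) := by
  unfold mN wordsM
  by_cases hi : i < p
  · by_cases hj : j < m
    · simp [hi, hj, List.getD_eq_getElem?_getD]
    · simp [hi, hj, List.getD_eq_getElem?_getD]
  · simp [hi, List.getD_eq_getElem?_getD]

theorem vN_word (E : Fin p → Tm (Fin a ⊕ Fin k)) (i : ℕ) :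
    tmW (vN E i) = (wordsV E).getD i (tmW (.const 0)) := by
  unfold vN wordsV
  by_cases hi : i < p
  · simp [hi, List.getD_eq_getElem?_getD]
  · simp [hi, List.getD_eq_getElem?_getD]

theorem wordsM_injective : Function.Injective
    (wordsM : (Fin p → Fin m → Tm (Fin a ⊕ Fin k)) → List (List (List Tok))) := by
  intro M M' h
  funext i j
  have a1 := congrFun (map_finRange_injective h) i
  have a2 := congrFun (map_finRange_injective a1) j
  exact tm_map_injective (enumQ_injective a k) (tmW_injective a2)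

theorem wordsV_injective : Function.Injective
    (wordsV : (Fin p → Tm (Fin a ⊕ Fin k)) → List (List Tok)) := by
  intro M M' h
  funext i
  have a1 := congrFun (map_finRange_injective h) i
  exact tm_map_injective (enumQ_injective a k) (tmW_injective a1)

end

instance : TEnc RecSentence := ⟨fun S => TEnc.enc (S.a, (S.k, (S.m, (S.c, (S.p, (S.q,
  (wordsM S.D, (wordsV S.E, (wordsM S.A, (wordsM S.C, wordsV S.B))))))))))⟩

theorem code_recSentence_injective : Function.Injective (code : RecSentence → List Bool) := by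
  apply EI.code
  rintro ⟨a, k, m, c, p, q, D, E, A, C, B⟩ ⟨a', k', m', c', p', q', D', E', A', C', B'⟩ h
  have em : EI (List (List (List Tok))) := ei_list (ei_list ei_word)
  have ev : EI (List (List Tok)) := ei_list ei_word
  have h1 := ei_pair ei_nat (ei_pair ei_nat (ei_pair ei_nat (ei_pair ei_nat (ei_pair ei_nat
    (ei_pair ei_nat (ei_pair em (ei_pair ev (ei_pair em (ei_pair em ev))))))))) h
  simp only [Prod.mk.injEq] at h1
  obtain ⟨rfl, rfl, rfl, rfl, rfl, rfl, h2, h3, h4, h5, h6⟩ := h1
  rw [wordsM_injective h2, wordsV_injective h3, wordsM_injective h4, wordsM_injective h5,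
    wordsV_injective h6]

/-! ### Polynomial time -/

/-- numbers of the new variables -/
def sN (S : RecSentence) (j : ℕ) : Tm ℕ := .var (S.a + (S.k + j))

/-- numbers of the new variables -/
def wN (S : RecSentence) (l : ℕ) : Tm ℕ := .var (S.a + ((S.k + S.q) + l))

/-- numbers of the new variables -/
def thN (S : RecSentence) (j : ℕ) : Tm ℕ := .var (S.a + ((S.k + S.q) + (S.c + j)))

/-- numbers of the new variables -/
def laN (S : RecSentence) (i : ℕ) : Tm ℕ := .var (S.a + ((S.k + S.q) + (S.c + (S.q + i))))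

/-- numbers of the new variables -/
def l0N (S : RecSentence) : Tm ℕ := .var (S.a + ((S.k + S.q) + (S.c + (S.q + (S.p + 0)))))

/-- the matrix with numbered variables -/
def recN (S : RecSentence) : Fml ℕ :=
  recG (List.range S.q) (List.range S.c) (List.range S.p) (List.range S.m)
    (sN S) (wN S) (thN S) (laN S) (l0N S) (mN S.D) (vN S.E) (mN S.A) (mN S.C) (vN S.B)

theorem recF_map (S : RecSentence) :
    (recF S).map (enumS S.a (S.k + S.q) (S.c + (S.q + (S.p + 1)))) = recN S := by
  have hq : ∀ t : Tm (Fin S.a ⊕ Fin S.k), (t.map (embR (c := S.c) (p := S.p) (q := S.q))).map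
      (enumS S.a (S.k + S.q) (S.c + (S.q + (S.p + 1)))) = t.map (enumQ S.a S.k) := by
    intro t
    rw [tm_map_map]
    congr 1
    funext v
    rcases v with v | v <;> rfl
  have hM : ∀ {n n' : ℕ} (M : Fin n → Fin n' → Tm (Fin S.a ⊕ Fin S.k)) (i : Fin n) (j : Fin n'),
      (M i j).map (enumQ S.a S.k) = mN M i j := by
    intro n n' M i j
    simp only [mN, Fin.is_lt, and_self, dif_pos, Fin.eta]
  have hV : ∀ {n : ℕ} (E : Fin n → Tm (Fin S.a ⊕ Fin S.k)) (i : Fin n),
      (E i).map (enumQ S.a S.k) = vN E i := by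
    intro n E i
    simp only [vN, Fin.is_lt, dif_pos, Fin.eta]
  refine recG_map _ _ _ _ _ _ _ _ _ _ _ _ _ _ _ _ _ _ _ _ _ (fun j => rfl) (fun l => rfl)
    (fun j => rfl) (fun i => rfl) rfl (fun i r => ?_) (fun i => ?_) (fun j r => ?_)
    (fun j l => ?_) fun j => ?_
  · rw [hq, hM]
  · rw [hq, hV]
  · rw [hq, hM]
  · rw [hq, hM]
  · rw [hq, hV]

section

variable {α : Type} [TEnc α]

theorem pt_dot {n : α → ℕ} (hn : PT n) {f g : α × ℕ → Tm ℕ} (hf : PT fun p => tmW (f p))
    (hg : PT fun p => tmW (g p)) :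
    PT fun x => tmW (dot (List.range (n x)) (fun i => f (x, i)) fun i => g (x, i)) :=
  pt_bigSum hn (f := fun p => .mul (f p) (g p)) (pt_mul hf hg)

theorem pt_bal {l f g : α → Tm ℕ} (hl : PT fun x => tmW (l x)) (hf : PT fun x => tmW (f x))
    (hg : PT fun x => tmW (g x)) : PT fun x => tmW (bal (l x) (f x) (g x)) :=
  pt_add hf (pt_mul hl (pt_mul (pt_const _) hg))

end

theorem pt_recOf : PT recOf := by
  have h0 : PT fun S : RecSentence => (S.a, (S.k, (S.m, (S.c, (S.p, (S.q,
      (wordsM S.D, (wordsV S.E, (wordsM S.A, (wordsM S.C, wordsV S.B)))))))))) :=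
    PT.of_code fun _ => rfl
  have ha : PT fun S : RecSentence => S.a := PT.fst.comp h0
  have h1 := PT.snd.comp h0
  have hk : PT fun S : RecSentence => S.k := PT.fst.comp h1
  have h2 := PT.snd.comp h1
  have hm : PT fun S : RecSentence => S.m := PT.fst.comp h2
  have h3 := PT.snd.comp h2
  have hc : PT fun S : RecSentence => S.c := PT.fst.comp h3
  have h4 := PT.snd.comp h3
  have hp : PT fun S : RecSentence => S.p := PT.fst.comp h4
  have h5 := PT.snd.comp h4
  have hq : PT fun S : RecSentence => S.q := PT.fst.comp h5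
  have h6 := PT.snd.comp h5
  have hD : PT fun S : RecSentence => wordsM S.D := PT.fst.comp h6
  have h7 := PT.snd.comp h6
  have hE : PT fun S : RecSentence => wordsV S.E := PT.fst.comp h7
  have h8 := PT.snd.comp h7
  have hA : PT fun S : RecSentence => wordsM S.A := PT.fst.comp h8
  have h9 := PT.snd.comp h8
  have hC : PT fun S : RecSentence => wordsM S.C := PT.fst.comp h9
  have hB : PT fun S : RecSentence => wordsV S.B := PT.snd.comp h9
  have hkq : PT fun S : RecSentence => S.k + S.q := PT.add hk hq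
  have p1 : PT fun p : RecSentence × ℕ => p.1 := PT.fst
  have q1 : PT fun q : (RecSentence × ℕ) × ℕ => (q.1.1, q.2) := PT.pair (PT.fst.comp PT.fst) PT.snd
  have ws : PT fun p : RecSentence × ℕ => tmW (sN p.1 p.2) :=
    pt_var (PT.add (ha.comp p1) (PT.add (hk.comp p1) PT.snd))
  have ww : PT fun p : RecSentence × ℕ => tmW (wN p.1 p.2) :=
    pt_var (PT.add (ha.comp p1) (PT.add (hkq.comp p1) PT.snd))
  have wt : PT fun p : RecSentence × ℕ => tmW (thN p.1 p.2) :=
    pt_var (PT.add (ha.comp p1) (PT.add (hkq.comp p1) (PT.add (hc.comp p1) PT.snd)))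
  have wl : PT fun p : RecSentence × ℕ => tmW (laN p.1 p.2) :=
    pt_var (PT.add (ha.comp p1) (PT.add (hkq.comp p1) (PT.add (hc.comp p1)
      (PT.add (hq.comp p1) PT.snd))))
  have w0 : PT fun S : RecSentence => tmW (l0N S) :=
    pt_var (PT.add ha (PT.add hkq (PT.add hc (PT.add hq (PT.add hp (PT.const 0))))))
  have getM : ∀ {β : Type} [TEnc β] {M : β → List (List (List Tok))} {i j : β → ℕ}, PT M → PT i →
      PT j → PT fun x => ((M x).getD (i x) []).getD (j x) (tmW (.const 0)) := by
    intro β _ M i j hM hi hj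
    exact PT.getD hj (PT.getD hi hM (PT.const ([] : List (List Tok)))) (PT.const (tmW (.const 0)))
  have vE : PT fun p : RecSentence × ℕ => tmW (vN p.1.E p.2) :=
    (PT.getD PT.snd (hE.comp p1) (PT.const (tmW (.const 0)))).congr fun p => vN_word p.1.E p.2
  have vB : PT fun p : RecSentence × ℕ => tmW (vN p.1.B p.2) :=
    (PT.getD PT.snd (hB.comp p1) (PT.const (tmW (.const 0)))).congr fun p => vN_word p.1.B p.2
  have x1 : PT fun q : (RecSentence × ℕ) × ℕ => q.1.1 := PT.fst.comp PT.fst
  have x2 : PT fun q : (RecSentence × ℕ) × ℕ => q.1.2 := PT.snd.comp PT.fst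
  have x3 : PT fun q : (RecSentence × ℕ) × ℕ => q.2 := PT.snd
  have mD : PT fun q : (RecSentence × ℕ) × ℕ => tmW (mN q.1.1.D q.2 q.1.2) :=
    (getM (hD.comp x1) x3 x2).congr fun q => mN_word q.1.1.D q.2 q.1.2
  have mA : PT fun q : (RecSentence × ℕ) × ℕ => tmW (mN q.1.1.A q.2 q.1.2) :=
    (getM (hA.comp x1) x3 x2).congr fun q => mN_word q.1.1.A q.2 q.1.2
  have mC : PT fun q : (RecSentence × ℕ) × ℕ => tmW (mN q.1.1.C q.2 q.1.2) :=
    (getM (hC.comp x1) x3 x2).congr fun q => mN_word q.1.1.C q.2 q.1.2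
  have mC' : PT fun q : (RecSentence × ℕ) × ℕ => tmW (mN q.1.1.C q.1.2 q.2) :=
    (getM (hC.comp x1) x2 x3).congr fun q => mN_word q.1.1.C q.1.2 q.2
  have w0' : PT fun p : RecSentence × ℕ => tmW (l0N p.1) := w0.comp p1
  have kap : PT fun S : RecSentence => tmW (bal (l0N S) (dot (List.range S.p) (laN S) (vN S.E))
      (dot (List.range S.q) (thN S) (vN S.B))) :=
    pt_bal w0 (pt_dot hp wl vE) (pt_dot hq wt vB)
  have c1 : PT fun S : RecSentence => fmlW (recN S) := by
    have d1 : PT fun S : RecSentence => fmlW (bigAnd ((List.range S.q).map fun j =>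
        .or (.not (.eq (sN S j) (.const 1)))
          (.lt (.const 0) (dot (List.range S.c) (mN S.C j) (wN S))))) := by
      refine pt_bigAnd hq (f := fun p : RecSentence × ℕ => .or (.not (.eq (sN p.1 p.2) (.const 1)))
        (.lt (.const 0) (dot (List.range p.1.c) (fun l => mN p.1.C p.2 l) fun l => wN p.1 l)))
        (pt_or (pt_not (pt_eq ws (pt_const 1))) (pt_lt (pt_const 0) ?_))
      exact pt_dot (hc.comp p1) (f := fun q : (RecSentence × ℕ) × ℕ => mN q.1.1.C q.1.2 q.2)
        (g := fun q : (RecSentence × ℕ) × ℕ => wN q.1.1 q.2) mC' (ww.comp q1)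
    have d2 : PT fun S : RecSentence => fmlW (bigAnd ((List.range S.q).map fun j =>
        .and (.not (.lt (thN S j) (.const 0)))
          (.or (.eq (sN S j) (.const 1)) (.eq (thN S j) (.const 0))))) :=
      pt_bigAnd hq (pt_and (pt_not (pt_lt wt (pt_const 0)))
        (pt_or (pt_eq ws (pt_const 1)) (pt_eq wt (pt_const 0))))
    have d3 : PT fun S : RecSentence => fmlW (bigOr ((List.range S.q).map fun j =>
        .not (.eq (thN S j) (.const 0)))) := pt_bigOr hq (pt_not (pt_eq wt (pt_const 0)))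
    have d4 : PT fun S : RecSentence => fmlW (bigAnd ((List.range S.c).map fun l =>
        .eq (dot (List.range S.q) (thN S) fun j => mN S.C j l) (.const 0))) := by
      refine pt_bigAnd hc (f := fun p : RecSentence × ℕ => .eq (dot (List.range p.1.q)
        (fun j => thN p.1 j) fun j => mN p.1.C j p.2) (.const 0)) (pt_eq ?_ (pt_const 0))
      exact pt_dot (hq.comp p1) (f := fun q : (RecSentence × ℕ) × ℕ => thN q.1.1 q.2)
        (g := fun q : (RecSentence × ℕ) × ℕ => mN q.1.1.C q.2 q.1.2) (wt.comp q1) mC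
    have d5 : PT fun S : RecSentence => fmlW (bigAnd ((List.range S.p).map fun i =>
        .not (.lt (laN S i) (.const 0)))) := pt_bigAnd hp (pt_not (pt_lt wl (pt_const 0)))
    have d6 : PT fun S : RecSentence => fmlW (bigAnd ((List.range S.m).map fun r =>
        .eq (bal (l0N S) (dot (List.range S.p) (laN S) fun i => mN S.D i r)
          (dot (List.range S.q) (thN S) fun j => mN S.A j r)) (.const 0))) := by
      refine pt_bigAnd hm (f := fun p : RecSentence × ℕ => .eq (bal (l0N p.1)
        (dot (List.range p.1.p) (fun i => laN p.1 i) fun i => mN p.1.D i p.2)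
        (dot (List.range p.1.q) (fun j => thN p.1 j) fun j => mN p.1.A j p.2)) (.const 0))
        (pt_eq (pt_bal w0' ?_ ?_) (pt_const 0))
      · exact pt_dot (hp.comp p1) (f := fun q : (RecSentence × ℕ) × ℕ => laN q.1.1 q.2)
          (g := fun q : (RecSentence × ℕ) × ℕ => mN q.1.1.D q.2 q.1.2) (wl.comp q1) mD
      · exact pt_dot (hq.comp p1) (f := fun q : (RecSentence × ℕ) × ℕ => thN q.1.1 q.2)
          (g := fun q : (RecSentence × ℕ) × ℕ => mN q.1.1.A q.2 q.1.2) (wt.comp q1) mA
    exact pt_or d1 (pt_and d2 (pt_and d3 (pt_and d4 (pt_and d5 (pt_and (pt_not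
      (pt_lt w0 (pt_const 0))) (pt_and d6 (pt_or (pt_lt kap (pt_const 0))
        (pt_and (pt_not (pt_lt (pt_const 0) kap)) (pt_lt (pt_const 0) w0)))))))))
  refine ptc (PT.pair ha (PT.pair hkq (PT.pair (PT.add hc (PT.add hq (PT.add hp (PT.const 1))))
    c1))) fun S => ?_
  have h10 : code (recOf S) = code (S.a, (S.k + S.q, (S.c + (S.q + (S.p + 1)),
    (recOf S).word))) := rfl
  have h11 : (recOf S).word = fmlW (recN S) := congrArg fmlW (recF_map S)
  rw [h10, h11]

end Pool.Agent.Lib.VC77.RC
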