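import Pool.Agent.Lib.VC77.LinBase
import Pool.Agent.Lib.VC77.RecP
import Pool.Agent.Lib.MP_77492d_lc.Cert36

/-!
# Sentences whose last two blocks are linear: the formula and its correctness
-/

set_option autoImplicit false

namespace Pool.Agent.Lib.VC77.LI

open TK AF RC
open Pool.Agent.Lib.MP_77492d_lc

/-! ### The formula -/

/-- `x - y` -/
def sub {V : Type} (x y : Tm V) : Tm V := .add x (.mul (.const (-1)) y)

/-- The variables and coefficients. -/
structure Par (V I M T Q : Type) where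
  lI : List I
  lM : List M
  lT : List T
  lQ : List Q
  cs : M → I
  la : I
  S : I → I → T → Tm V
  R : I → I → T → Tm V
  C : I → I → I → Tm V
  p : I → Tm V
  n : I → Tm V
  w1 : T → Tm V
  w2 : T → Tm V
  w3 : Q → Tm V
  wr : I → Tm V
  lam : I → I → T → Tm V
  e : I → I → Tm V
  Y : M → Tm V
  Z : Q → Tm V
  sp : T → Tm V
  sn : T → Tm V
  c : T → I → Tm V
  d : T → Q → Tm V

section

variable {V I M T Q : Type} (P : Par V I M T Q)

/-- `LamC` -/
def lamCF (j k : I) : Fml V :=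
  .and (bigAnd (P.lT.map fun t => .eq (.add (.add (.mul (sub (.const 1) (P.S j k t)) (P.w1 t))
      (.mul (P.R j k t) (P.w2 t))) (dot P.lQ P.w3 (P.d t))) (.const 0)))
    (.eq (dot P.lT (P.R j k) P.w2) (.const 1))

/-- `LamE` -/
def lamEF (j k : I) : Fml V :=
  .and (bigAnd (P.lT.map fun t => .eq (.mul (sub (.const 1) (P.S j k t)) (P.lam j k t))
      (.const 0)))
    (.and (bigAnd (P.lT.map fun t => .eq (.mul (P.R j k t) (P.lam j k t)) (P.R j k t)))
      (bigAnd (P.lQ.map fun q => .eq (dot P.lT (P.lam j k) fun t => P.d t q) (.const 0))))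

/-- the coefficients of a functional -/
def coefF (j k i : I) : Tm V := .add (dot P.lT (P.lam j k) fun t => P.c t i) (P.C j k i)

/-- `RayE` -/
def rayEF (j : I) : Fml V :=
  .and (bigAnd (P.lM.map fun k => .eq (dot P.lI (fun i => coefF P j (P.cs k) i) (P.e j))
      (.const 0)))
    (.eq (dot P.lI (fun i => coefF P j P.la i) (P.e j)) (sub (P.p j) (P.n j)))

/-- `RayC` -/
def rayCF (j : I) : Fml V :=
  .and (bigAnd (P.lI.map fun i => .eq (dot P.lI P.wr fun k => coefF P j k i) (.const 0)))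
    (.eq (.mul (P.wr P.la) (sub (P.p j) (P.n j))) (.const 1))

/-- the sum of the rays -/
def sumE (i : I) : Tm V := bigSum (P.lI.map fun j => P.e j i)

/-- the affine functions -/
def ellF (t : T) : Tm V :=
  .add (dot P.lQ (P.d t) P.Z) (.add (dot P.lM (fun i => P.c t (P.cs i)) P.Y) (P.c t P.la))

/-- a sign bit -/
def sgF (s : Tm V) (φ : Fml V) : Fml V :=
  .or (.and (.eq s (.const 1)) φ) (.and (.eq s (.const 0)) (.not φ))

/-- the sign bits -/
def signF : Fml V := bigAnd (P.lT.map fun t =>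
  .and (sgF (P.sp t) (.lt (.const 0) (ellF P t))) (sgF (P.sn t) (.lt (ellF P t) (.const 0))))

/-- the matrix of the new sentence -/
def allF (ψ : Fml V) : Fml V :=
  .or (bigOr (P.lI.map fun j => bigOr (P.lI.map fun k => lamCF P j k)))
    (.and (bigAnd (P.lI.map fun j => bigAnd (P.lI.map fun k => lamEF P j k)))
      (.or (bigOr (P.lI.map fun j => rayCF P j))
        (.and (bigAnd (P.lI.map fun j => rayEF P j))
          (.or (.not (.lt (.const 0) (sumE P P.la)))
            (.and (bigAnd (P.lM.map fun i =>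
                .eq (.mul (sumE P P.la) (P.Y i)) (sumE P (P.cs i))))
              (.and (signF P) ψ))))))

end

/-! ### The variables -/

/-- the universal variables -/
abbrev UV (k m N : ℕ) : Type :=
  Fin k ⊕ ((Fin (m + 1) × (Fin (m + 1) × Fin N)) ⊕ ((Fin (m + 1) × (Fin (m + 1) × Fin N)) ⊕
    ((Fin (m + 1) × (Fin (m + 1) × Fin (m + 1))) ⊕ (Fin (m + 1) ⊕ Fin (m + 1)))))

/-- the existential variables -/
abbrev EV (m l N c : ℕ) : Type :=
  Fin N ⊕ (Fin N ⊕ (Fin l ⊕ (Fin (m + 1) ⊕ ((Fin (m + 1) × (Fin (m + 1) × Fin N)) ⊕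
    ((Fin (m + 1) × Fin (m + 1)) ⊕ (Fin m ⊕ (Fin l ⊕ (Fin N ⊕ (Fin N ⊕ Fin c)))))))))

/-- all variables -/
abbrev VV (a k m l N c : ℕ) : Type := Fin a ⊕ (UV k m N ⊕ EV m l N c)

section

variable {a k m l N c : ℕ}

/-- the variables of the coefficients -/
def embQ : Fin a ⊕ Fin k → VV a k m l N c := Sum.elim .inl fun i => .inr (.inl (.inl i))

/-- the variable of a positive sign bit -/
def vsp (t : Fin N) : EV m l N c := .inr (.inr (.inr (.inr (.inr (.inr (.inr (.inr (.inl t))))))))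

/-- the variable of a negative sign bit -/
def vsn (t : Fin N) : EV m l N c :=
  .inr (.inr (.inr (.inr (.inr (.inr (.inr (.inr (.inr (.inl t)))))))))

/-- the variables `W` -/
def vW (w : Fin c) : EV m l N c :=
  .inr (.inr (.inr (.inr (.inr (.inr (.inr (.inr (.inr (.inr w)))))))))

/-- the variables of the matrix -/
def embL : Fin a ⊕ (Fin (k + (N + N)) ⊕ Fin c) → VV a k m l N c :=
  Sum.elim .inl (Sum.elim (Fin.addCases (fun i => .inr (.inl (.inl i)))
    (Fin.addCases (fun t => .inr (.inr (vsp t))) fun t => .inr (.inr (vsn t))))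
      fun w => .inr (.inr (vW w)))

/-- the variables and coefficients of the new sentence -/
def stdV (A : Fin N → Fin (m + 1) → Tm (Fin a ⊕ Fin k)) (D : Fin N → Fin l → Tm (Fin a ⊕ Fin k)) :
    Par (VV a k m l N c) (Fin (m + 1)) (Fin m) (Fin N) (Fin l) where
  lI := List.finRange (m + 1)
  lM := List.finRange m
  lT := List.finRange N
  lQ := List.finRange l
  cs := Fin.castSucc
  la := Fin.last m
  S := fun j i t => .var (.inr (.inl (.inr (.inl (j, (i, t))))))
  R := fun j i t => .var (.inr (.inl (.inr (.inr (.inl (j, (i, t)))))))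
  C := fun j i t => .var (.inr (.inl (.inr (.inr (.inr (.inl (j, (i, t))))))))
  p := fun j => .var (.inr (.inl (.inr (.inr (.inr (.inr (.inl j)))))))
  n := fun j => .var (.inr (.inl (.inr (.inr (.inr (.inr (.inr j)))))))
  w1 := fun t => .var (.inr (.inr (.inl t)))
  w2 := fun t => .var (.inr (.inr (.inr (.inl t))))
  w3 := fun q => .var (.inr (.inr (.inr (.inr (.inl q)))))
  wr := fun j => .var (.inr (.inr (.inr (.inr (.inr (.inl j))))))
  lam := fun j i t => .var (.inr (.inr (.inr (.inr (.inr (.inr (.inl (j, (i, t)))))))))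
  e := fun j i => .var (.inr (.inr (.inr (.inr (.inr (.inr (.inr (.inl (j, i)))))))))
  Y := fun i => .var (.inr (.inr (.inr (.inr (.inr (.inr (.inr (.inr (.inl i)))))))))
  Z := fun q => .var (.inr (.inr (.inr (.inr (.inr (.inr (.inr (.inr (.inr (.inl q))))))))))
  sp := fun t => .var (.inr (.inr (vsp t)))
  sn := fun t => .var (.inr (.inr (vsn t)))
  c := fun t i => (A t i).map embQ
  d := fun t q => (D t q).map embQ

end

/-- the matrix of the new sentence -/
def linF (S : LinSentence) : Fml (VV S.a S.k S.m S.l S.N S.c) :=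
  allF (stdV S.A S.D) (S.Ψ.map embL)

/-! ### Correctness -/

/-- the meaning of `linF` -/
def AllP {m l N : ℕ} (c : Fin N → Fin (m + 1) → ℝ) (d : Fin N → Fin l → ℝ)
    (S R : Fin (m + 1) → Fin (m + 1) → Fin N → Bool)
    (C : Fin (m + 1) → Fin (m + 1) → Fin (m + 1) → Bool) (p n : Fin (m + 1) → Bool)
    (w1 w2 : Fin N → ℝ) (w3 : Fin l → ℝ) (wr : Fin (m + 1) → ℝ)
    (lam : Fin (m + 1) → Fin (m + 1) → Fin N → ℝ) (e : Fin (m + 1) → Fin (m + 1) → ℝ)
    (Y : Fin m → ℝ) (Z : Fin l → ℝ) (sp sn : Fin N → ℝ) (Q : Prop) : Prop :=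
  (∃ j k, Cf.LamC d (S j k) (R j k) w1 w2 w3) ∨
    ((∀ j k, Cf.LamE d (S j k) (R j k) (lam j k)) ∧
      ((∃ j, Cf.RayC c (lam j) (C j) (p j) (n j) wr) ∨
        ((∀ j, Cf.RayE c (lam j) (C j) (p j) (n j) (e j)) ∧
          (¬ 0 < ∑ j, e j (Fin.last m) ∨
            ((∀ i : Fin m, (∑ j, e j (Fin.last m)) * Y i = ∑ j, e j i.castSucc) ∧
              ((∀ t, (sp t = 1 ∧ 0 < Cf.alp c d Y Z t ∨ sp t = 0 ∧ ¬ 0 < Cf.alp c d Y Z t) ∧
                (sn t = 1 ∧ Cf.alp c d Y Z t < 0 ∨ sn t = 0 ∧ ¬ Cf.alp c d Y Z t < 0)) ∧ Q))))))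

theorem holds_linF (S : LinSentence) (X : Fin S.a → ℝ) (β : UV S.k S.m S.N → Bool)
    (z : EV S.m S.l S.N S.c → ℝ) :
    (linF S).Holds (Sum.elim X (Sum.elim (fun u => Cf.bit (β u)) z)) ↔
      AllP (fun t i => (S.A t i).val (Sum.elim X (real fun i => β (.inl i))))
        (fun t q => (S.D t q).val (Sum.elim X (real fun i => β (.inl i))))
        (fun j k t => β (.inr (.inl (j, (k, t))))) (fun j k t => β (.inr (.inr (.inl (j, (k, t))))))
        (fun j k i => β (.inr (.inr (.inr (.inl (j, (k, i)))))))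
        (fun j => β (.inr (.inr (.inr (.inr (.inl j))))))
        (fun j => β (.inr (.inr (.inr (.inr (.inr j))))))
        (fun t => z (.inl t)) (fun t => z (.inr (.inl t))) (fun q => z (.inr (.inr (.inl q))))
        (fun i => z (.inr (.inr (.inr (.inl i)))))
        (fun j k t => z (.inr (.inr (.inr (.inr (.inl (j, (k, t))))))))
        (fun j i => z (.inr (.inr (.inr (.inr (.inr (.inl (j, i))))))))
        (fun i => z (.inr (.inr (.inr (.inr (.inr (.inr (.inl i))))))))
        (fun q => z (.inr (.inr (.inr (.inr (.inr (.inr (.inr (.inl q)))))))))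
        (fun t => z (vsp t)) (fun t => z (vsn t))
        (S.Ψ.Holds (Sum.elim X (Sum.elim (Fin.addCases (fun i => Cf.bit (β (.inl i)))
          (Fin.addCases (fun t => z (vsp t)) fun t => z (vsn t))) fun w => z (vW w)))) := by
  have h1 : ∀ t : Tm (Fin S.a ⊕ Fin S.k),
      (t.map (embQ (m := S.m) (l := S.l) (N := S.N) (c := S.c))).val
      (Sum.elim X (Sum.elim (fun u => Cf.bit (β u)) z)) =
      t.val (Sum.elim X (real fun i => β (.inl i))) := by
    intro t
    rw [Tm.val_map]
    congr 1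
    funext v
    rcases v with v | v <;> rfl
  have h2 : (S.Ψ.map (embL (m := S.m) (l := S.l))).Holds
      (Sum.elim X (Sum.elim (fun u => Cf.bit (β u)) z)) ↔
      S.Ψ.Holds (Sum.elim X (Sum.elim (Fin.addCases (fun i => Cf.bit (β (.inl i)))
        (Fin.addCases (fun t => z (vsp t)) fun t => z (vsn t))) fun w => z (vW w))) := by
    rw [Fml.holds_map]
    have : (Sum.elim X (Sum.elim (fun u => Cf.bit (β u)) z)) ∘
        (embL (a := S.a) (k := S.k) (m := S.m) (l := S.l) (N := S.N) (c := S.c)) =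
        Sum.elim X (Sum.elim (Fin.addCases (fun i => Cf.bit (β (.inl i)))
        (Fin.addCases (fun t => z (vsp t)) fun t => z (vsn t))) fun w => z (vW w)) := by
      funext v
      rcases v with v | v | v
      · rfl
      · simp only [Function.comp_apply, embL, Sum.elim_inr, Sum.elim_inl]
        refine Fin.addCases (fun i => ?_) (fun i => ?_) v
        · simp only [Fin.addCases_left, Sum.elim_inr, Sum.elim_inl]
        · refine Fin.addCases (fun t => ?_) (fun t => ?_) i
          · simp only [Fin.addCases_left, Fin.addCases_right, Sum.elim_inr]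
          · simp only [Fin.addCases_right, Sum.elim_inr]
      · rfl
    rw [this]
  have hsub : ∀ x y : ℝ, x + -1 * y = x - y := fun x y => by ring
  have h3 : ∀ {n : ℕ} (f : Fin n → Tm (VV S.a S.k S.m S.l S.N S.c)),
      (bigSum ((List.finRange n).map f)).val (Sum.elim X (Sum.elim (fun u => Cf.bit (β u)) z)) =
      ∑ i, (f i).val (Sum.elim X (Sum.elim (fun u => Cf.bit (β u)) z)) := by
    intro n f
    rw [val_bigSum, List.map_map, Fin.sum_univ_def]
    rfl
  simp only [linF, allF, stdV, lamCF, lamEF, rayCF, rayEF, signF, sgF, sumE, ellF, coefF, sub,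
    Fml.Holds, holds_bigAnd, holds_bigOr, List.mem_map, List.mem_finRange, true_and,
    forall_exists_index, forall_apply_eq_imp_iff, exists_exists_eq_and, val_dot, h3, Tm.val, h1, h2,
    Sum.elim_inl, Sum.elim_inr, Int.cast_zero, Int.cast_one, Int.cast_neg, hsub,
    Cf.LamC, Cf.LamE, Cf.RayC, Cf.RayE, Cf.alp, AllP]

/-- signs depend only on signs -/
theorem signBits_congr {k s : ℕ} (b : Fin k → Bool) (v v' : Fin s → ℝ)
    (h : ∀ t, Cf.SE (v t) (v' t)) : signBits b v = signBits b v' := by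
  funext i
  refine Fin.addCases (fun i => ?_) (fun i => ?_) i
  · simp only [signBits, Fin.addCases_left]
  · refine Fin.addCases (fun t => ?_) (fun t => ?_) i
    · simp only [signBits, Fin.addCases_left, Fin.addCases_right]
      exact decide_eq_decide.2 (h t).1
    · simp only [signBits, Fin.addCases_right]
      exact decide_eq_decide.2 (h t).2

theorem linF_holds (S : LinSentence) (X : Fin S.a → ℝ) :
    (∀ β : UV S.k S.m S.N → Bool, ∃ z : EV S.m S.l S.N S.c → ℝ,
      (linF S).Holds (Sum.elim X (Sum.elim (fun u => Cf.bit (β u)) z))) ↔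
    ∀ b : Fin S.k → Bool, ∀ Y : Fin S.m → ℝ, ∃ (Z : Fin S.l → ℝ) (W : Fin S.c → ℝ),
      S.Ψ.Holds (Sum.elim X (Sum.elim (real (signBits b (S.ell X b Y Z))) W)) := by
  classical
  have key : ∀ b : Fin S.k → Bool,
      (∀ Y : Fin S.m → ℝ, ∃ (Z : Fin S.l → ℝ) (W : Fin S.c → ℝ),
        S.Ψ.Holds (Sum.elim X (Sum.elim (real (signBits b (S.ell X b Y Z))) W))) ↔
      (∀ Y : Fin S.m → ℝ, ∃ Z : Fin S.l → ℝ, (fun v => ∃ W : Fin S.c → ℝ,
        S.Ψ.Holds (Sum.elim X (Sum.elim (real (signBits b v)) W)))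
        (Cf.alp (fun t i => (S.A t i).val (Sum.elim X (real b)))
          (fun t q => (S.D t q).val (Sum.elim X (real b))) Y Z)) := fun b => Iff.rfl
  have hP : ∀ b : Fin S.k → Bool, ∀ v v' : Fin S.N → ℝ, (∀ t, Cf.SE (v t) (v' t)) →
      (∃ W : Fin S.c → ℝ, S.Ψ.Holds (Sum.elim X (Sum.elim (real (signBits b v)) W))) →
      ∃ W : Fin S.c → ℝ, S.Ψ.Holds (Sum.elim X (Sum.elim (real (signBits b v')) W)) := by
    intro b v v' h1 h2
    rw [← signBits_congr b v v' h1]
    exact h2
  -- the sign bits are determined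
  have env : ∀ (b : Fin S.k → Bool) (v sp sn : Fin S.N → ℝ),
      (∀ t, (sp t = 1 ∧ 0 < v t ∨ sp t = 0 ∧ ¬ 0 < v t) ∧
        (sn t = 1 ∧ v t < 0 ∨ sn t = 0 ∧ ¬ v t < 0)) →
      (Fin.addCases (fun i => Cf.bit (b i)) (Fin.addCases sp sn) : Fin (S.k + (S.N + S.N)) → ℝ) =
        real (signBits b v) := by
    intro b v sp sn h
    funext i
    refine Fin.addCases (fun i => ?_) (fun i => ?_) i
    · simp only [Fin.addCases_left, real, signBits, Cf.bit]
    · refine Fin.addCases (fun t => ?_) (fun t => ?_) i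
      · simp only [Fin.addCases_left, Fin.addCases_right, real, signBits, decide_eq_true_eq]
        rcases (h t).1 with h1 | h1
        · rw [if_pos h1.2]; exact h1.1
        · rw [if_neg h1.2]; exact h1.1
      · simp only [Fin.addCases_right, real, signBits, decide_eq_true_eq]
        rcases (h t).2 with h1 | h1
        · rw [if_pos h1.2]; exact h1.1
        · rw [if_neg h1.2]; exact h1.1
  constructor
  · intro h b
    rw [key, Cf.test_iff' _ _ _ (hP b)]
    intro S' R C p n
    obtain ⟨z, hz⟩ := h (Sum.elim b (Sum.elim (fun x => S' x.1 x.2.1 x.2.2)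
      (Sum.elim (fun x => R x.1 x.2.1 x.2.2) (Sum.elim (fun x => C x.1 x.2.1 x.2.2)
        (Sum.elim p n)))))
    rw [holds_linF] at hz
    simp only [Sum.elim_inl, Sum.elim_inr] at hz
    refine ⟨fun t => z (.inl t), fun t => z (.inr (.inl t)), fun q => z (.inr (.inr (.inl q))),
      fun i => z (.inr (.inr (.inr (.inl i)))),
      fun j k t => z (.inr (.inr (.inr (.inr (.inl (j, (k, t))))))),
      fun j i => z (.inr (.inr (.inr (.inr (.inr (.inl (j, i))))))),
      fun i => z (.inr (.inr (.inr (.inr (.inr (.inr (.inl i))))))),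
      fun q => z (.inr (.inr (.inr (.inr (.inr (.inr (.inr (.inl q)))))))), ?_⟩
    rcases hz with hz | ⟨h1, hz⟩
    · exact Or.inl hz
    · refine Or.inr ⟨h1, ?_⟩
      rcases hz with hz | ⟨h2, hz⟩
      · exact Or.inl hz
      · refine Or.inr ⟨h2, ?_⟩
        rcases hz with hz | ⟨h3, h4, h5⟩
        · exact Or.inl (not_lt.1 hz)
        · refine Or.inr ⟨h3, ?_⟩
          rw [env b _ _ _ h4] at h5
          exact ⟨_, h5⟩
  · intro h β
    have h0 := h fun i => β (.inl i)
    rw [key, Cf.test_iff' _ _ _ (hP _)] at h0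
    obtain ⟨w1, w2, w3, wr, lam, e, Y, Z, hE⟩ := h0
      (fun j k t => β (.inr (.inl (j, (k, t))))) (fun j k t => β (.inr (.inr (.inl (j, (k, t))))))
      (fun j k i => β (.inr (.inr (.inr (.inl (j, (k, i)))))))
      (fun j => β (.inr (.inr (.inr (.inr (.inl j))))))
      (fun j => β (.inr (.inr (.inr (.inr (.inr j))))))
    set v := Cf.alp (fun t i => (S.A t i).val (Sum.elim X (real fun i => β (.inl i))))
      (fun t q => (S.D t q).val (Sum.elim X (real fun i => β (.inl i)))) Y Z with hv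
    have hsg : ∀ t, ((if 0 < v t then (1 : ℝ) else 0) = 1 ∧ 0 < v t ∨
        (if 0 < v t then (1 : ℝ) else 0) = 0 ∧ ¬ 0 < v t) ∧
        ((if v t < 0 then (1 : ℝ) else 0) = 1 ∧ v t < 0 ∨
        (if v t < 0 then (1 : ℝ) else 0) = 0 ∧ ¬ v t < 0) := by
      intro t
      constructor
      · by_cases h1 : 0 < v t
        · exact Or.inl ⟨if_pos h1, h1⟩
        · exact Or.inr ⟨if_neg h1, h1⟩
      · by_cases h1 : v t < 0
        · exact Or.inl ⟨if_pos h1, h1⟩
        · exact Or.inr ⟨if_neg h1, h1⟩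
    set zf : (Fin S.c → ℝ) → EV S.m S.l S.N S.c → ℝ := fun W => Sum.elim w1 (Sum.elim w2
        (Sum.elim w3 (Sum.elim wr (Sum.elim (fun x => lam x.1 x.2.1 x.2.2) (Sum.elim
          (fun x => e x.1 x.2) (Sum.elim Y (Sum.elim Z (Sum.elim
            (fun t => if 0 < v t then 1 else 0) (Sum.elim (fun t => if v t < 0 then 1 else 0)
              W))))))))) with hzf
    rcases hE with hE | ⟨h1, hE⟩
    · exact ⟨zf 0, (holds_linF _ _ _ _).2 (Or.inl hE)⟩
    · rcases hE with hE | ⟨h2, hE⟩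
      · exact ⟨zf 0, (holds_linF _ _ _ _).2 (Or.inr ⟨h1, Or.inl hE⟩)⟩
      · rcases hE with hE | ⟨h3, W, h4⟩
        · exact ⟨zf 0, (holds_linF _ _ _ _).2 (Or.inr ⟨h1, Or.inr ⟨h2, Or.inl (not_lt.2 hE)⟩⟩)⟩
        · refine ⟨zf W, (holds_linF _ _ _ _).2 (Or.inr ⟨h1, Or.inr ⟨h2, Or.inr ⟨h3, hsg, ?_⟩⟩⟩)⟩
          have h5 := env (fun i => β (.inl i)) v _ _ hsg
          have h6 : (Fin.addCases (fun i => Cf.bit (β (.inl i)))
              (Fin.addCases (fun t => zf W (vsp t)) fun t => zf W (vsn t)) :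
                Fin (S.k + (S.N + S.N)) → ℝ) = real (signBits (fun i => β (.inl i)) v) := h5
          rw [h6]
          exact h4

end Pool.Agent.Lib.VC77.LI
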