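import Pool.Agent.Lib.VC77.LinF
import Pool.Agent.Lib.VC77.Code

/-!
# Sentences whose last two blocks are linear: the numbering of the variables
-/

set_option autoImplicit false

namespace Pool.Agent.Lib.VC77.LI

open Pool.Agent.Lib.PolyFun
open TK AF RC
open Pool.Agent.Lib.MP_77492d_lc

/-! ### Numbering -/

/-- numbering of triples -/
def e3 (x y z : ℕ) : Fin x × (Fin y × Fin z) ≃ Fin (x * (y * z)) :=
  (Equiv.prodCongr (Equiv.refl _) finProdFinEquiv).trans finProdFinEquiv

/-- numbering of a sum -/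
def eS {α β : Type} {m n : ℕ} (e : α ≃ Fin m) (e' : β ≃ Fin n) : α ⊕ β ≃ Fin (m + n) :=
  (Equiv.sumCongr e e').trans finSumFinEquiv

/-- the number of universal variables -/
abbrev kU (k m N : ℕ) : ℕ :=
  k + ((m + 1) * ((m + 1) * N) + ((m + 1) * ((m + 1) * N) + ((m + 1) * ((m + 1) * (m + 1)) +
    ((m + 1) + (m + 1)))))

/-- the number of existential variables -/
abbrev cE (m l N c : ℕ) : ℕ :=
  N + (N + (l + ((m + 1) + ((m + 1) * ((m + 1) * N) + ((m + 1) * (m + 1) +
    (m + (l + (N + (N + c)))))))))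

/-- numbering of the universal variables -/
def eU (k m N : ℕ) : UV k m N ≃ Fin (kU k m N) :=
  eS (Equiv.refl _) (eS (e3 _ _ _) (eS (e3 _ _ _) (eS (e3 _ _ _)
    (eS (Equiv.refl _) (Equiv.refl _)))))

/-- numbering of the existential variables -/
def eE (m l N c : ℕ) : EV m l N c ≃ Fin (cE m l N c) :=
  eS (Equiv.refl _) (eS (Equiv.refl _) (eS (Equiv.refl _) (eS (Equiv.refl _) (eS (e3 _ _ _)
    (eS finProdFinEquiv (eS (Equiv.refl _) (eS (Equiv.refl _) (eS (Equiv.refl _)
      (eS (Equiv.refl _) (Equiv.refl _))))))))))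

/-- The sentence with a Boolean universal block. -/
def linOf (S : LinSentence) : Sentence :=
  ⟨S.a, kU S.k S.m S.N, cE S.m S.l S.N S.c,
    (linF S).map (Sum.map id (Sum.map (eU S.k S.m S.N) (eE S.m S.l S.N S.c)))⟩

theorem linOf_holds (S : LinSentence) : (linOf S).Holds ↔ S.Holds := by
  have h0 : ∀ (X : Fin S.a → ℝ) (b : Fin (kU S.k S.m S.N) → Bool)
      (Z : Fin (cE S.m S.l S.N S.c) → ℝ),
      ((linF S).map (Sum.map id (Sum.map (eU S.k S.m S.N) (eE S.m S.l S.N S.c)))).Holds
        (Sum.elim X (Sum.elim (fun i => if b i = true then 1 else 0) Z)) ↔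
      (linF S).Holds (Sum.elim X (Sum.elim (fun u => Cf.bit (b (eU S.k S.m S.N u)))
        fun e => Z (eE S.m S.l S.N S.c e))) := by
    intro X b Z
    rw [Fml.holds_map]
    have : (Sum.elim X (Sum.elim (fun i => if b i = true then (1 : ℝ) else 0) Z)) ∘
        (Sum.map id (Sum.map (eU S.k S.m S.N) (eE S.m S.l S.N S.c))) =
        Sum.elim X (Sum.elim (fun u => Cf.bit (b (eU S.k S.m S.N u)))
        fun e => Z (eE S.m S.l S.N S.c e)) := by
      funext v
      rcases v with v | v | v <;> rfl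
    rw [this]
  unfold Sentence.Holds EBE LinSentence.Holds
  change (∃ X : Fin S.a → ℝ, ∀ b : Fin (kU S.k S.m S.N) → Bool,
    ∃ Z : Fin (cE S.m S.l S.N S.c) → ℝ,
      ((linF S).map (Sum.map id (Sum.map (eU S.k S.m S.N) (eE S.m S.l S.N S.c)))).Holds
        (Sum.elim X (Sum.elim (fun i => if b i = true then 1 else 0) Z))) ↔ _
  refine exists_congr fun X => ?_
  rw [← linF_holds]
  constructor
  · intro h β
    obtain ⟨Z, hZ⟩ := h fun i => β ((eU S.k S.m S.N).symm i)
    rw [h0] at hZ
    simp only [Equiv.symm_apply_apply] at hZ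
    exact ⟨_, hZ⟩
  · intro h b
    obtain ⟨z, hz⟩ := h fun u => b (eU S.k S.m S.N u)
    refine ⟨fun i => z ((eE S.m S.l S.N S.c).symm i), ?_⟩
    rw [h0]
    simp only [Equiv.symm_apply_apply]
    exact hz

/-! ### The numbered formula -/

/-- the numbered variables and coefficients agree with the structured ones -/
structure Cmp {V W : Type} {m l N : ℕ} (f : V → W)
    (P : Par V (Fin (m + 1)) (Fin m) (Fin N) (Fin l)) (P' : Par W ℕ ℕ ℕ ℕ) : Prop where
  lI : P.lI = List.finRange (m + 1)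
  lM : P.lM = List.finRange m
  lT : P.lT = List.finRange N
  lQ : P.lQ = List.finRange l
  lI' : P'.lI = List.range (m + 1)
  lM' : P'.lM = List.range m
  lT' : P'.lT = List.range N
  lQ' : P'.lQ = List.range l
  cs : ∀ i : Fin m, ((P.cs i : Fin (m + 1)) : ℕ) = P'.cs i
  la : (P.la : ℕ) = P'.la
  S : ∀ (j i : Fin (m + 1)) (t : Fin N), (P.S j i t).map f = P'.S j i t
  R : ∀ (j i : Fin (m + 1)) (t : Fin N), (P.R j i t).map f = P'.R j i t
  C : ∀ j i t : Fin (m + 1), (P.C j i t).map f = P'.C j i t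
  p : ∀ j : Fin (m + 1), (P.p j).map f = P'.p j
  n : ∀ j : Fin (m + 1), (P.n j).map f = P'.n j
  w1 : ∀ t : Fin N, (P.w1 t).map f = P'.w1 t
  w2 : ∀ t : Fin N, (P.w2 t).map f = P'.w2 t
  w3 : ∀ q : Fin l, (P.w3 q).map f = P'.w3 q
  wr : ∀ j : Fin (m + 1), (P.wr j).map f = P'.wr j
  lam : ∀ (j i : Fin (m + 1)) (t : Fin N), (P.lam j i t).map f = P'.lam j i t
  e : ∀ j i : Fin (m + 1), (P.e j i).map f = P'.e j i
  Y : ∀ i : Fin m, (P.Y i).map f = P'.Y i
  Z : ∀ q : Fin l, (P.Z q).map f = P'.Z q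
  sp : ∀ t : Fin N, (P.sp t).map f = P'.sp t
  sn : ∀ t : Fin N, (P.sn t).map f = P'.sn t
  c : ∀ (t : Fin N) (i : Fin (m + 1)), (P.c t i).map f = P'.c t i
  d : ∀ (t : Fin N) (q : Fin l), (P.d t q).map f = P'.d t q

section

variable {V W : Type} {m l N : ℕ} {f : V → W} {P : Par V (Fin (m + 1)) (Fin m) (Fin N) (Fin l)}
  {P' : Par W ℕ ℕ ℕ ℕ} (h : Cmp f P P')

include h

theorem lamCF_cmp (j k : Fin (m + 1)) : (lamCF P j k).map f = lamCF P' j k := by
  unfold lamCF
  rw [h.lT, h.lQ, h.lT', h.lQ']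
  simp only [Fml.map, bigAnd_map, List.map_map]
  refine congrArg₂ Fml.and (congrArg bigAnd (finRange_map _ _ _ fun t => ?_)) ?_
  · simp only [Function.comp_apply, Fml.map, Tm.map, sub, h.S, h.w1, h.R, h.w2]
    rw [dot_map f P.w3 (P.d t) P'.w3 (P'.d t) h.w3 (h.d t)]
  · rw [dot_map f (P.R j k) P.w2 (P'.R j k) P'.w2 (h.R j k) h.w2]
    rfl

theorem lamEF_cmp (j k : Fin (m + 1)) : (lamEF P j k).map f = lamEF P' j k := by
  unfold lamEF
  rw [h.lT, h.lQ, h.lT', h.lQ']
  simp only [Fml.map, bigAnd_map, List.map_map]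
  refine congrArg₂ Fml.and (congrArg bigAnd (finRange_map _ _ _ fun t => ?_))
    (congrArg₂ Fml.and (congrArg bigAnd (finRange_map _ _ _ fun t => ?_))
      (congrArg bigAnd (finRange_map _ _ _ fun q => ?_)))
  · simp only [Function.comp_apply, Fml.map, Tm.map, sub, h.S, h.lam]
  · simp only [Function.comp_apply, Fml.map, Tm.map, h.R, h.lam]
  · simp only [Function.comp_apply, Fml.map, Tm.map]
    rw [dot_map f (P.lam j k) (fun t => P.d t q) (P'.lam j k) (fun t => P'.d t q) (h.lam j k)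
      fun t => h.d t q]

theorem coefF_cmp (j k i : Fin (m + 1)) : (coefF P j k i).map f = coefF P' j k i := by
  unfold coefF
  rw [h.lT, h.lT']
  simp only [Tm.map, h.C]
  rw [dot_map f (P.lam j k) (fun t => P.c t i) (P'.lam j k) (fun t => P'.c t i) (h.lam j k)
    fun t => h.c t i]

theorem rayEF_cmp (j : Fin (m + 1)) : (rayEF P j).map f = rayEF P' j := by
  unfold rayEF
  rw [h.lM, h.lI, h.lM', h.lI']
  simp only [Fml.map, bigAnd_map, List.map_map]
  refine congrArg₂ Fml.and (congrArg bigAnd (finRange_map _ _ _ fun k => ?_)) ?_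
  · simp only [Function.comp_apply, Fml.map, Tm.map]
    rw [dot_map f (fun i => coefF P j (P.cs k) i) (P.e j) (fun i => coefF P' j (P'.cs k) i)
      (P'.e j) (fun i => by rw [coefF_cmp h, h.cs]) (h.e j)]
  · rw [dot_map f (fun i => coefF P j P.la i) (P.e j) (fun i => coefF P' j P'.la i)
      (P'.e j) (fun i => by rw [coefF_cmp h, h.la]) (h.e j)]
    simp only [Tm.map, sub, h.p, h.n]

theorem rayCF_cmp (j : Fin (m + 1)) : (rayCF P j).map f = rayCF P' j := by
  unfold rayCF
  rw [h.lI, h.lI']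
  simp only [Fml.map, bigAnd_map, List.map_map]
  refine congrArg₂ Fml.and (congrArg bigAnd (finRange_map _ _ _ fun i => ?_)) ?_
  · simp only [Function.comp_apply, Fml.map, Tm.map]
    rw [dot_map f P.wr (fun k => coefF P j k i) P'.wr (fun k => coefF P' j k i) h.wr
      fun k => coefF_cmp h j k i]
  · simp only [Tm.map, sub, h.p, h.n, h.wr, h.la]

theorem sumE_cmp (i : Fin (m + 1)) : (sumE P i).map f = sumE P' i := by
  unfold sumE
  rw [h.lI, h.lI', bigSum_map, List.map_map]
  exact congrArg bigSum (finRange_map _ _ _ fun j => h.e j i)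

theorem ellF_cmp (t : Fin N) : (ellF P t).map f = ellF P' t := by
  unfold ellF
  rw [h.lQ, h.lM, h.lQ', h.lM']
  simp only [Tm.map, h.c, h.la]
  rw [dot_map f (P.d t) P.Z (P'.d t) P'.Z (h.d t) h.Z,
    dot_map f (fun i => P.c t (P.cs i)) P.Y (fun i => P'.c t (P'.cs i)) P'.Y
      (fun i => by rw [h.c, h.cs]) h.Y]

theorem signF_cmp : (signF P).map f = signF P' := by
  unfold signF
  rw [h.lT, h.lT', bigAnd_map, List.map_map]
  refine congrArg bigAnd (finRange_map _ _ _ fun t => ?_)
  simp only [Function.comp_apply, Fml.map, Tm.map, sgF, h.sp, h.sn, ellF_cmp h]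

theorem allF_cmp (ψ : Fml V) (ψ' : Fml W) (hψ : ψ.map f = ψ') :
    (allF P ψ).map f = allF P' ψ' := by
  unfold allF
  rw [h.lI, h.lM, h.lI', h.lM']
  simp only [Fml.map, bigAnd_map, bigOr_map, List.map_map, Tm.map, hψ, signF_cmp h]
  refine congrArg₂ Fml.or (congrArg bigOr (finRange_map _ _ _ fun j => ?_))
    (congrArg₂ Fml.and (congrArg bigAnd (finRange_map _ _ _ fun j => ?_))
      (congrArg₂ Fml.or (congrArg bigOr (finRange_map _ _ _ fun j => ?_))
        (congrArg₂ Fml.and (congrArg bigAnd (finRange_map _ _ _ fun j => ?_))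
          (congrArg₂ Fml.or ?_ (congrArg₂ Fml.and
            (congrArg bigAnd (finRange_map _ _ _ fun i => ?_)) rfl)))))
  · simp only [Function.comp_apply, bigOr_map, List.map_map]
    exact congrArg bigOr (finRange_map _ _ _ fun k => lamCF_cmp h j k)
  · simp only [Function.comp_apply, bigAnd_map, List.map_map]
    exact congrArg bigAnd (finRange_map _ _ _ fun k => lamEF_cmp h j k)
  · exact rayCF_cmp h j
  · exact rayEF_cmp h j
  · rw [sumE_cmp h, h.la]
  · simp only [Function.comp_apply, Fml.map, Tm.map, sumE_cmp h, h.Y, h.la, h.cs]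

end

/-- number of rows -/
def nI (S : LinSentence) : ℕ := S.m + 1

/-- number of triples -/
def s3 (S : LinSentence) : ℕ := (S.m + 1) * ((S.m + 1) * S.N)

/-- number of triples -/
def c3 (S : LinSentence) : ℕ := (S.m + 1) * ((S.m + 1) * (S.m + 1))

/-- number of universal variables -/
def uS (S : LinSentence) : ℕ := S.k + (s3 S + (s3 S + (c3 S + (nI S + nI S))))

/-- the variables and coefficients, numbered -/
def stdN (S : LinSentence) : Par ℕ ℕ ℕ ℕ ℕ where
  lI := List.range (S.m + 1)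
  lM := List.range S.m
  lT := List.range S.N
  lQ := List.range S.l
  cs := fun i => i
  la := S.m
  S := fun j i t => .var (S.a + (S.k + ((t + S.N * i) + ((S.m + 1) * S.N) * j)))
  R := fun j i t => .var (S.a + (S.k + (s3 S + ((t + S.N * i) + ((S.m + 1) * S.N) * j))))
  C := fun j i t => .var (S.a + (S.k + (s3 S + (s3 S + ((t + (S.m + 1) * i) +
    ((S.m + 1) * (S.m + 1)) * j)))))
  p := fun j => .var (S.a + (S.k + (s3 S + (s3 S + (c3 S + j)))))
  n := fun j => .var (S.a + (S.k + (s3 S + (s3 S + (c3 S + ((S.m + 1) + j))))))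
  w1 := fun t => .var (S.a + (uS S + t))
  w2 := fun t => .var (S.a + (uS S + (S.N + t)))
  w3 := fun q => .var (S.a + (uS S + (S.N + (S.N + q))))
  wr := fun j => .var (S.a + (uS S + (S.N + (S.N + (S.l + j)))))
  lam := fun j i t => .var (S.a + (uS S + (S.N + (S.N + (S.l + ((S.m + 1) +
    ((t + S.N * i) + ((S.m + 1) * S.N) * j)))))))
  e := fun j i => .var (S.a + (uS S + (S.N + (S.N + (S.l + ((S.m + 1) + (s3 S +
    (i + (S.m + 1) * j))))))))
  Y := fun i => .var (S.a + (uS S + (S.N + (S.N + (S.l + ((S.m + 1) + (s3 S +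
    ((S.m + 1) * (S.m + 1) + i))))))))
  Z := fun q => .var (S.a + (uS S + (S.N + (S.N + (S.l + ((S.m + 1) + (s3 S +
    ((S.m + 1) * (S.m + 1) + (S.m + q)))))))))
  sp := fun t => .var (S.a + (uS S + (S.N + (S.N + (S.l + ((S.m + 1) + (s3 S +
    ((S.m + 1) * (S.m + 1) + (S.m + (S.l + t))))))))))
  sn := fun t => .var (S.a + (uS S + (S.N + (S.N + (S.l + ((S.m + 1) + (s3 S +
    ((S.m + 1) * (S.m + 1) + (S.m + (S.l + (S.N + t)))))))))))
  c := fun t i => mN S.A t i
  d := fun t q => mN S.D t q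

/-- the numbers of the variables of the matrix -/
def renL (S : LinSentence) (v : ℕ) : ℕ :=
  if v < S.a + S.k then v else S.a + (uS S + (S.N + (S.N + (S.l + ((S.m + 1) + (s3 S +
    ((S.m + 1) * (S.m + 1) + (S.m + (S.l + (v - (S.a + S.k)))))))))))

theorem linF_map (S : LinSentence) :
    ((linF S).map (Sum.map id (Sum.map (eU S.k S.m S.N) (eE S.m S.l S.N S.c)))).map
      (enumS S.a (kU S.k S.m S.N) (cE S.m S.l S.N S.c)) =
    allF (stdN S) ((S.Ψ.map (enumS S.a (S.k + (S.N + S.N)) S.c)).map fun v => renL S v) := by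
  have hq : ∀ t : Tm (Fin S.a ⊕ Fin S.k),
      (t.map (embQ (m := S.m) (l := S.l) (N := S.N) (c := S.c))).map
      (fun v => enumS S.a (kU S.k S.m S.N) (cE S.m S.l S.N S.c)
        (Sum.map id (Sum.map (eU S.k S.m S.N) (eE S.m S.l S.N S.c)) v)) =
      t.map (enumQ S.a S.k) := by
    intro t
    rw [tm_map_map]
    congr 1
    funext v
    rcases v with v | v <;> rfl
  have hM : ∀ {n n' : ℕ} (M : Fin n → Fin n' → Tm (Fin S.a ⊕ Fin S.k)) (i : Fin n) (j : Fin n'),
      (M i j).map (enumQ S.a S.k) = mN M i j := by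
    intro n n' M i j
    simp only [mN, Fin.is_lt, and_self, dif_pos, Fin.eta]
  rw [fml_map_map]
  refine allF_cmp (P := stdV S.A S.D) (P' := stdN S) ?_ _ _ ?_
  · exact {
      lI := rfl, lM := rfl, lT := rfl, lQ := rfl, lI' := rfl, lM' := rfl, lT' := rfl, lQ' := rfl
      cs := fun i => rfl
      la := rfl
      S := fun j i t => rfl
      R := fun j i t => rfl
      C := fun j i t => rfl
      p := fun j => rfl
      n := fun j => rfl
      w1 := fun t => rfl
      w2 := fun t => rfl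
      w3 := fun q => rfl
      wr := fun j => rfl
      lam := fun j i t => rfl
      e := fun j i => rfl
      Y := fun i => rfl
      Z := fun q => rfl
      sp := fun t => rfl
      sn := fun t => rfl
      c := fun t i => (hq _).trans (hM S.A t i)
      d := fun t q => (hq _).trans (hM S.D t q) }
  · rw [fml_map_map, fml_map_map]
    congr 1
    funext v
    rcases v with v | v | v
    · have h1 : enumS S.a (S.k + (S.N + S.N)) S.c (Sum.inl v) = (v : ℕ) := rfl
      rw [h1, renL, if_pos (by omega)]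
      rfl
    · refine Fin.addCases (fun i => ?_) (fun i => ?_) v
      · have h1 : enumS S.a (S.k + (S.N + S.N)) S.c
            (Sum.inr (Sum.inl (Fin.castAdd (S.N + S.N) i))) = S.a + (i : ℕ) := rfl
        rw [h1, renL, if_pos (by omega), embL]
        simp only [Sum.elim_inr, Sum.elim_inl, Fin.addCases_left]
        rfl
      · refine Fin.addCases (fun t => ?_) (fun t => ?_) i
        · have h1 : enumS S.a (S.k + (S.N + S.N)) S.c
              (Sum.inr (Sum.inl (Fin.natAdd S.k (Fin.castAdd S.N t)))) =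
              S.a + (S.k + (t : ℕ)) := rfl
          have h2 : S.a + (S.k + (t : ℕ)) - (S.a + S.k) = t := by omega
          rw [h1, renL, if_neg (by omega), h2, embL]
          simp only [Sum.elim_inr, Sum.elim_inl, Fin.addCases_left, Fin.addCases_right]
          rfl
        · have h1 : enumS S.a (S.k + (S.N + S.N)) S.c
              (Sum.inr (Sum.inl (Fin.natAdd S.k (Fin.natAdd S.N t)))) =
              S.a + (S.k + (S.N + (t : ℕ))) := rfl
          have h2 : S.a + (S.k + (S.N + (t : ℕ))) - (S.a + S.k) = S.N + t := by omega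
          rw [h1, renL, if_neg (by omega), h2, embL]
          simp only [Sum.elim_inr, Sum.elim_inl, Fin.addCases_right]
          rfl
    · have h1 : enumS S.a (S.k + (S.N + S.N)) S.c (Sum.inr (Sum.inr v)) =
          S.a + ((S.k + (S.N + S.N)) + (v : ℕ)) := rfl
      have h2 : S.a + ((S.k + (S.N + S.N)) + (v : ℕ)) - (S.a + S.k) = S.N + (S.N + v) := by omega
      rw [h1, renL, if_neg (by omega), h2]
      rfl

end Pool.Agent.Lib.VC77.LI
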