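import Pool.Agent.Lib.VC77.LinN

/-!
# Sentences whose last two blocks are linear: polynomial time
-/

set_option autoImplicit false

namespace Pool.Agent.Lib.VC77.LI

open Pool.Agent.Lib.PolyFun
open TK AF RC

instance : TEnc LinSentence := ⟨fun S => TEnc.enc (S.a, (S.k, (S.m, (S.l, (S.N, (S.c,
  (wordsM S.A, (wordsM S.D, S.word))))))))⟩

theorem code_lin : (code : LinSentence → List Bool) = LinSentence.code := by
  funext S
  change code (S.a, (S.k, (S.m, (S.l, (S.N, (S.c, (wordsM S.A, (wordsM S.D, S.word)))))))) = _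
  simp only [code_pair, code_nat, code_word, code_mat]
  rfl

theorem code_linSentence_injective : Function.Injective (code : LinSentence → List Bool) := by
  apply EI.code
  rintro ⟨a, k, m, l, N, c, A, D, Ψ⟩ ⟨a', k', m', l', N', c', A', D', Ψ'⟩ h
  have em : EI (List (List (List Tok))) := ei_list (ei_list ei_word)
  have h1 := ei_pair ei_nat (ei_pair ei_nat (ei_pair ei_nat (ei_pair ei_nat (ei_pair ei_nat
    (ei_pair ei_nat (ei_pair em (ei_pair em ei_word))))))) h
  simp only [Prod.mk.injEq] at h1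
  obtain ⟨rfl, rfl, rfl, rfl, rfl, rfl, h2, h3, h4⟩ := h1
  have e3 : Ψ = Ψ' := fml_map_injective (enumS_injective _ _ _) (fmlW_injective h4)
  rw [wordsM_injective h2, wordsM_injective h3, e3]

theorem p0 : PT fun S : LinSentence => (S.a, (S.k, (S.m, (S.l, (S.N, (S.c,
    (wordsM S.A, (wordsM S.D, S.word)))))))) := PT.of_code fun _ => rfl

theorem p1 : PT fun S : LinSentence => (S.k, (S.m, (S.l, (S.N, (S.c,
    (wordsM S.A, (wordsM S.D, S.word))))))) := PT.snd.comp p0

theorem p2 : PT fun S : LinSentence => (S.m, (S.l, (S.N, (S.c,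
    (wordsM S.A, (wordsM S.D, S.word)))))) := PT.snd.comp p1

theorem p3 : PT fun S : LinSentence => (S.l, (S.N, (S.c,
    (wordsM S.A, (wordsM S.D, S.word))))) := PT.snd.comp p2

theorem p4 : PT fun S : LinSentence => (S.N, (S.c,
    (wordsM S.A, (wordsM S.D, S.word)))) := PT.snd.comp p3

theorem p5 : PT fun S : LinSentence => (S.c, (wordsM S.A, (wordsM S.D, S.word))) :=
  PT.snd.comp p4

theorem p6 : PT fun S : LinSentence => (wordsM S.A, (wordsM S.D, S.word)) := PT.snd.comp p5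

theorem p7 : PT fun S : LinSentence => (wordsM S.D, S.word) := PT.snd.comp p6

theorem pa : PT fun S : LinSentence => S.a := PT.fst.comp p0
theorem pk : PT fun S : LinSentence => S.k := PT.fst.comp p1
theorem pm : PT fun S : LinSentence => S.m := PT.fst.comp p2
theorem pl : PT fun S : LinSentence => S.l := PT.fst.comp p3
theorem pN' : PT fun S : LinSentence => S.N := PT.fst.comp p4
theorem pc : PT fun S : LinSentence => S.c := PT.fst.comp p5
theorem pA : PT fun S : LinSentence => wordsM S.A := PT.fst.comp p6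
theorem pD : PT fun S : LinSentence => wordsM S.D := PT.fst.comp p7
theorem pw : PT fun S : LinSentence => S.word := PT.snd.comp p7

theorem pn : PT fun S : LinSentence => S.m + 1 := PT.succ pm
theorem pnN : PT fun S : LinSentence => (S.m + 1) * S.N := PT.mul pn pN'
theorem pnn : PT fun S : LinSentence => (S.m + 1) * (S.m + 1) := PT.mul pn pn
theorem ps3 : PT s3 := PT.mul pn pnN
theorem pc3 : PT c3 := PT.mul pn pnn
theorem puS : PT uS := PT.add pk (PT.add ps3 (PT.add ps3 (PT.add pc3 (PT.add pn pn))))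

section

variable {β : Type} [TEnc β] {s : β → LinSentence} {j i t : β → ℕ}

theorem pt_tri (hs : PT s) (hj : PT j) (hi : PT i) (ht : PT t) :
    PT fun x => (t x + (s x).N * i x) + (((s x).m + 1) * (s x).N) * j x :=
  PT.add (PT.add ht (PT.mul (pN'.comp hs) hi)) (PT.mul (pnN.comp hs) hj)

theorem pt_S (hs : PT s) (hj : PT j) (hi : PT i) (ht : PT t) :
    PT fun x => tmW ((stdN (s x)).S (j x) (i x) (t x)) :=
  pt_var (PT.add (pa.comp hs) (PT.add (pk.comp hs) (pt_tri hs hj hi ht)))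

theorem pt_R (hs : PT s) (hj : PT j) (hi : PT i) (ht : PT t) :
    PT fun x => tmW ((stdN (s x)).R (j x) (i x) (t x)) :=
  pt_var (PT.add (pa.comp hs) (PT.add (pk.comp hs) (PT.add (ps3.comp hs) (pt_tri hs hj hi ht))))

theorem pt_C (hs : PT s) (hj : PT j) (hi : PT i) (ht : PT t) :
    PT fun x => tmW ((stdN (s x)).C (j x) (i x) (t x)) :=
  pt_var (PT.add (pa.comp hs) (PT.add (pk.comp hs) (PT.add (ps3.comp hs) (PT.add (ps3.comp hs)
    (PT.add (PT.add ht (PT.mul (pn.comp hs) hi)) (PT.mul (pnn.comp hs) hj))))))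

theorem pt_p (hs : PT s) (hj : PT j) : PT fun x => tmW ((stdN (s x)).p (j x)) :=
  pt_var (PT.add (pa.comp hs) (PT.add (pk.comp hs) (PT.add (ps3.comp hs) (PT.add (ps3.comp hs)
    (PT.add (pc3.comp hs) hj)))))

theorem pt_n (hs : PT s) (hj : PT j) : PT fun x => tmW ((stdN (s x)).n (j x)) :=
  pt_var (PT.add (pa.comp hs) (PT.add (pk.comp hs) (PT.add (ps3.comp hs) (PT.add (ps3.comp hs)
    (PT.add (pc3.comp hs) (PT.add (pn.comp hs) hj))))))

theorem pt_w1 (hs : PT s) (ht : PT t) : PT fun x => tmW ((stdN (s x)).w1 (t x)) :=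
  pt_var (PT.add (pa.comp hs) (PT.add (puS.comp hs) ht))

theorem pt_w2 (hs : PT s) (ht : PT t) : PT fun x => tmW ((stdN (s x)).w2 (t x)) :=
  pt_var (PT.add (pa.comp hs) (PT.add (puS.comp hs) (PT.add (pN'.comp hs) ht)))

/-- the first offset -/
theorem pt_o (hs : PT s) (ht : PT t) :
    PT fun x => (s x).a + (uS (s x) + ((s x).N + ((s x).N + t x))) :=
  PT.add (pa.comp hs) (PT.add (puS.comp hs) (PT.add (pN'.comp hs) (PT.add (pN'.comp hs) ht)))

theorem pt_w3 (hs : PT s) (ht : PT t) : PT fun x => tmW ((stdN (s x)).w3 (t x)) :=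
  pt_var (pt_o hs ht)

theorem pt_wr (hs : PT s) (ht : PT t) : PT fun x => tmW ((stdN (s x)).wr (t x)) :=
  pt_var (pt_o hs (PT.add (pl.comp hs) ht))

/-- the second offset -/
theorem pt_o2 (hs : PT s) (ht : PT t) : PT fun x => (s x).l + (((s x).m + 1) + t x) :=
  PT.add (pl.comp hs) (PT.add (pn.comp hs) ht)

theorem pt_lam (hs : PT s) (hj : PT j) (hi : PT i) (ht : PT t) :
    PT fun x => tmW ((stdN (s x)).lam (j x) (i x) (t x)) :=
  pt_var (pt_o hs (pt_o2 hs (pt_tri hs hj hi ht)))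

theorem pt_e (hs : PT s) (hj : PT j) (hi : PT i) :
    PT fun x => tmW ((stdN (s x)).e (j x) (i x)) :=
  pt_var (pt_o hs (pt_o2 hs (PT.add (ps3.comp hs) (PT.add hi (PT.mul (pn.comp hs) hj)))))

/-- the third offset -/
theorem pt_o3 (hs : PT s) (ht : PT t) : PT fun x => (s x).a + (uS (s x) + ((s x).N + ((s x).N +
    ((s x).l + (((s x).m + 1) + (s3 (s x) + (((s x).m + 1) * ((s x).m + 1) + t x))))))) :=
  pt_o hs (pt_o2 hs (PT.add (ps3.comp hs) (PT.add (pnn.comp hs) ht)))

theorem pt_Y (hs : PT s) (ht : PT t) : PT fun x => tmW ((stdN (s x)).Y (t x)) :=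
  pt_var (pt_o3 hs ht)

theorem pt_Z (hs : PT s) (ht : PT t) : PT fun x => tmW ((stdN (s x)).Z (t x)) :=
  pt_var (pt_o3 hs (PT.add (pm.comp hs) ht))

theorem pt_sp (hs : PT s) (ht : PT t) : PT fun x => tmW ((stdN (s x)).sp (t x)) :=
  pt_var (pt_o3 hs (PT.add (pm.comp hs) (PT.add (pl.comp hs) ht)))

theorem pt_sn (hs : PT s) (ht : PT t) : PT fun x => tmW ((stdN (s x)).sn (t x)) :=
  pt_var (pt_o3 hs (PT.add (pm.comp hs) (PT.add (pl.comp hs) (PT.add (pN'.comp hs) ht))))

theorem pt_get {M : β → List (List (List Tok))} (hM : PT M) (hi : PT i) (hj : PT j) :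
    PT fun x => ((M x).getD (i x) []).getD (j x) (tmW (.const 0)) :=
  PT.getD hj (PT.getD hi hM (PT.const ([] : List (List Tok)))) (PT.const (tmW (.const 0)))

theorem pt_c (hs : PT s) (ht : PT t) (hi : PT i) :
    PT fun x => tmW ((stdN (s x)).c (t x) (i x)) :=
  (pt_get (pA.comp hs) ht hi).congr fun x => mN_word (s x).A (t x) (i x)

theorem pt_d (hs : PT s) (ht : PT t) (hi : PT i) :
    PT fun x => tmW ((stdN (s x)).d (t x) (i x)) :=
  (pt_get (pD.comp hs) ht hi).congr fun x => mN_word (s x).D (t x) (i x)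

theorem pt_sub {f g : β → Tm ℕ} (hf : PT fun x => tmW (f x)) (hg : PT fun x => tmW (g x)) :
    PT fun x => tmW (sub (f x) (g x)) := pt_add hf (pt_mul (pt_const _) hg)

/-- sums of products -/
theorem pt_dot' {n : β → ℕ} (hn : PT n) {f g : β → ℕ → Tm ℕ}
    (hf : PT fun q : β × ℕ => tmW (f q.1 q.2)) (hg : PT fun q : β × ℕ => tmW (g q.1 q.2)) :
    PT fun x => tmW (dot (List.range (n x)) (f x) (g x)) :=
  pt_dot hn (f := fun q => f q.1 q.2) (g := fun q => g q.1 q.2) hf hg

theorem pt_all {n : β → ℕ} (hn : PT n) {f : β → ℕ → Fml ℕ}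
    (hf : PT fun q : β × ℕ => fmlW (f q.1 q.2)) :
    PT fun x => fmlW (bigAnd ((List.range (n x)).map (f x))) :=
  pt_bigAnd hn (f := fun q => f q.1 q.2) hf

theorem pt_ex {n : β → ℕ} (hn : PT n) {f : β → ℕ → Fml ℕ}
    (hf : PT fun q : β × ℕ => fmlW (f q.1 q.2)) :
    PT fun x => fmlW (bigOr ((List.range (n x)).map (f x))) :=
  pt_bigOr hn (f := fun q => f q.1 q.2) hf

/-- the first component -/
theorem up {γ : Type} [TEnc γ] {f : β → γ} (hf : PT f) : PT fun q : β × ℕ => f q.1 :=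
  hf.comp PT.fst

theorem lastc : PT fun q : β × ℕ => q.2 := PT.snd

theorem pt_lamC (hs : PT s) (hj : PT j) (hi : PT i) :
    PT fun x => fmlW (lamCF (stdN (s x)) (j x) (i x)) := by
  have a1 := up hs
  have a2 := up hj
  have a3 := up hi
  have a4 : PT fun q : β × ℕ => q.2 := PT.snd
  refine pt_and (pt_all (pN'.comp hs) (f := fun x t => .eq (.add (.add (.mul (sub (.const 1)
    ((stdN (s x)).S (j x) (i x) t)) ((stdN (s x)).w1 t)) (.mul ((stdN (s x)).R (j x) (i x) t)
      ((stdN (s x)).w2 t))) (dot (List.range (s x).l) (stdN (s x)).w3 ((stdN (s x)).d t)))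
        (.const 0)) ?_) (pt_eq (pt_dot' (pN'.comp hs) (pt_R a1 a2 a3 a4) (pt_w2 a1 a4))
          (pt_const 1))
  exact pt_eq (pt_add (pt_add (pt_mul (pt_sub (pt_const 1) (pt_S a1 a2 a3 a4)) (pt_w1 a1 a4))
    (pt_mul (pt_R a1 a2 a3 a4) (pt_w2 a1 a4))) (pt_dot' (pl.comp a1)
      (f := fun q => (stdN (s q.1)).w3) (g := fun q => (stdN (s q.1)).d q.2)
      (pt_w3 (up a1) PT.snd) (pt_d (up a1) (up a4) PT.snd))) (pt_const 0)

theorem pt_lamE (hs : PT s) (hj : PT j) (hi : PT i) :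
    PT fun x => fmlW (lamEF (stdN (s x)) (j x) (i x)) := by
  have a1 := up hs
  have a2 := up hj
  have a3 := up hi
  have a4 : PT fun q : β × ℕ => q.2 := PT.snd
  refine pt_and (pt_all (pN'.comp hs) (f := fun x t => .eq (.mul (sub (.const 1)
    ((stdN (s x)).S (j x) (i x) t)) ((stdN (s x)).lam (j x) (i x) t)) (.const 0)) ?_)
    (pt_and (pt_all (pN'.comp hs) (f := fun x t => .eq (.mul ((stdN (s x)).R (j x) (i x) t)
      ((stdN (s x)).lam (j x) (i x) t)) ((stdN (s x)).R (j x) (i x) t)) ?_)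
      (pt_all (pl.comp hs) (f := fun x q => .eq (dot (List.range (s x).N)
        ((stdN (s x)).lam (j x) (i x)) fun t => (stdN (s x)).d t q) (.const 0)) ?_))
  · exact pt_eq (pt_mul (pt_sub (pt_const 1) (pt_S a1 a2 a3 a4)) (pt_lam a1 a2 a3 a4)) (pt_const 0)
  · exact pt_eq (pt_mul (pt_R a1 a2 a3 a4) (pt_lam a1 a2 a3 a4)) (pt_R a1 a2 a3 a4)
  · exact pt_eq (pt_dot' (pN'.comp a1) (f := fun q => (stdN (s q.1)).lam (j q.1) (i q.1))
      (g := fun q t => (stdN (s q.1)).d t q.2) (pt_lam (up a1) (up a2) (up a3) PT.snd)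
      (pt_d (up a1) PT.snd (up a4))) (pt_const 0)

theorem pt_coef (hs : PT s) (hj : PT j) (hi : PT i) (ht : PT t) :
    PT fun x => tmW (coefF (stdN (s x)) (j x) (i x) (t x)) :=
  pt_add (pt_dot' (pN'.comp hs) (f := fun x => (stdN (s x)).lam (j x) (i x))
    (g := fun x u => (stdN (s x)).c u (t x)) (pt_lam (up hs) (up hj) (up hi) PT.snd)
    (pt_c (up hs) PT.snd (up ht))) (pt_C hs hj hi ht)

theorem pt_rayE (hs : PT s) (hj : PT j) : PT fun x => fmlW (rayEF (stdN (s x)) (j x)) := by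
  refine pt_and (pt_all (pm.comp hs) (f := fun x k => .eq (dot (List.range ((s x).m + 1))
    (fun i => coefF (stdN (s x)) (j x) k i) ((stdN (s x)).e (j x))) (.const 0)) ?_)
    (pt_eq (pt_dot' (pn.comp hs) (f := fun x i => coefF (stdN (s x)) (j x) (s x).m i)
      (g := fun x => (stdN (s x)).e (j x)) (pt_coef (up hs) (up hj) (up (pm.comp hs)) PT.snd)
      (pt_e (up hs) (up hj) PT.snd)) (pt_sub (pt_p hs hj) (pt_n hs hj)))
  exact pt_eq (pt_dot' (pn.comp (up hs)) (f := fun q i => coefF (stdN (s q.1)) (j q.1) q.2 i)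
    (g := fun q => (stdN (s q.1)).e (j q.1)) (pt_coef (up (up hs)) (up (up hj)) (up PT.snd) PT.snd)
    (pt_e (up (up hs)) (up (up hj)) PT.snd)) (pt_const 0)

theorem pt_rayC (hs : PT s) (hj : PT j) : PT fun x => fmlW (rayCF (stdN (s x)) (j x)) := by
  refine pt_and (pt_all (pn.comp hs) (f := fun x i => .eq (dot (List.range ((s x).m + 1))
    (stdN (s x)).wr fun k => coefF (stdN (s x)) (j x) k i) (.const 0)) ?_)
    (pt_eq (pt_mul (pt_wr hs (pm.comp hs)) (pt_sub (pt_p hs hj) (pt_n hs hj))) (pt_const 1))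
  exact pt_eq (pt_dot' (pn.comp (up hs)) (f := fun q => (stdN (s q.1)).wr)
    (g := fun q k => coefF (stdN (s q.1)) (j q.1) k q.2) (pt_wr (up (up hs)) PT.snd)
    (pt_coef (up (up hs)) (up (up hj)) PT.snd (up PT.snd))) (pt_const 0)

theorem pt_sumE (hs : PT s) (hi : PT i) : PT fun x => tmW (sumE (stdN (s x)) (i x)) :=
  pt_bigSum (pn.comp hs) (f := fun q : β × ℕ => (stdN (s q.1)).e q.2 (i q.1))
    (pt_e (up hs) PT.snd (up hi))

theorem pt_ell (hs : PT s) (ht : PT t) : PT fun x => tmW (ellF (stdN (s x)) (t x)) :=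
  pt_add (pt_dot' (pl.comp hs) (f := fun x => (stdN (s x)).d (t x)) (g := fun x => (stdN (s x)).Z)
    (pt_d (up hs) (up ht) PT.snd) (pt_Z (up hs) PT.snd))
    (pt_add (pt_dot' (pm.comp hs) (f := fun x i => (stdN (s x)).c (t x) i)
      (g := fun x => (stdN (s x)).Y) (pt_c (up hs) (up ht) PT.snd) (pt_Y (up hs) PT.snd))
      (pt_c hs ht (pm.comp hs)))

theorem pt_sg {σ : β → Tm ℕ} {φ : β → Fml ℕ} (h1 : PT fun x => tmW (σ x))
    (h2 : PT fun x => fmlW (φ x)) : PT fun x => fmlW (sgF (σ x) (φ x)) :=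
  pt_or (pt_and (pt_eq h1 (pt_const 1)) h2) (pt_and (pt_eq h1 (pt_const 0)) (pt_not h2))

theorem pt_sign (hs : PT s) : PT fun x => fmlW (signF (stdN (s x))) :=
  pt_all (pN'.comp hs) (f := fun x t => .and
    (sgF ((stdN (s x)).sp t) (.lt (.const 0) (ellF (stdN (s x)) t)))
    (sgF ((stdN (s x)).sn t) (.lt (ellF (stdN (s x)) t) (.const 0))))
    (pt_and (pt_sg (pt_sp (up hs) PT.snd) (pt_lt (pt_const 0) (pt_ell (up hs) PT.snd)))
      (pt_sg (pt_sn (up hs) PT.snd) (pt_lt (pt_ell (up hs) PT.snd) (pt_const 0))))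

end

theorem pt_allF {ψ : LinSentence → Fml ℕ} (hψ : PT fun S => fmlW (ψ S)) :
    PT fun S : LinSentence => fmlW (allF (stdN S) (ψ S)) := by
  have i0 : PT fun S : LinSentence => S := PT.id
  have i1 : PT fun q : LinSentence × ℕ => q.1 := PT.fst
  have i2 : PT fun q : LinSentence × ℕ => q.2 := PT.snd
  have b1 : PT fun S : LinSentence => fmlW (bigOr ((List.range (S.m + 1)).map fun j =>
      bigOr ((List.range (S.m + 1)).map fun k => lamCF (stdN S) j k))) :=
    pt_ex pn (f := fun S j => bigOr ((List.range (S.m + 1)).map fun k => lamCF (stdN S) j k))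
      (pt_ex (pn.comp i1) (f := fun q k => lamCF (stdN q.1) q.2 k)
        (pt_lamC (up i1) (up i2) PT.snd))
  have b2 : PT fun S : LinSentence => fmlW (bigAnd ((List.range (S.m + 1)).map fun j =>
      bigAnd ((List.range (S.m + 1)).map fun k => lamEF (stdN S) j k))) :=
    pt_all pn (f := fun S j => bigAnd ((List.range (S.m + 1)).map fun k => lamEF (stdN S) j k))
      (pt_all (pn.comp i1) (f := fun q k => lamEF (stdN q.1) q.2 k)
        (pt_lamE (up i1) (up i2) PT.snd))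
  have b3 : PT fun S : LinSentence => fmlW (bigOr ((List.range (S.m + 1)).map fun j =>
      rayCF (stdN S) j)) := pt_ex pn (f := fun S j => rayCF (stdN S) j) (pt_rayC i1 i2)
  have b4 : PT fun S : LinSentence => fmlW (bigAnd ((List.range (S.m + 1)).map fun j =>
      rayEF (stdN S) j)) := pt_all pn (f := fun S j => rayEF (stdN S) j) (pt_rayE i1 i2)
  have b5 : PT fun S : LinSentence => tmW (sumE (stdN S) S.m) := pt_sumE i0 pm
  have b6 : PT fun S : LinSentence => fmlW (bigAnd ((List.range S.m).map fun i =>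
      .eq (.mul (sumE (stdN S) S.m) ((stdN S).Y i)) (sumE (stdN S) i))) :=
    pt_all pm (f := fun S i => .eq (.mul (sumE (stdN S) S.m) ((stdN S).Y i)) (sumE (stdN S) i))
      (pt_eq (pt_mul (pt_sumE i1 (pm.comp i1)) (pt_Y i1 i2)) (pt_sumE i1 i2))
  exact pt_or b1 (pt_and b2 (pt_or b3 (pt_and b4 (pt_or (pt_not (pt_lt (pt_const 0) b5))
    (pt_and b6 (pt_and (pt_sign i0) hψ))))))

theorem pt_linOf : PT linOf := by
  have hr : PT fun q : LinSentence × ℕ => renL q.1 q.2 := by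
    have i1 : PT fun q : LinSentence × ℕ => q.1 := PT.fst
    have i2 : PT fun q : LinSentence × ℕ => q.2 := PT.snd
    have h1 : PT fun q : LinSentence × ℕ => q.1.a + q.1.k := PT.add (pa.comp i1) (pk.comp i1)
    exact PT.ite (PT.lt i2 h1) i2 (pt_o3 i1 (PT.add (pm.comp i1) (PT.add (pl.comp i1)
      (PT.sub i2 h1))))
  have hψ : PT fun S : LinSentence =>
      fmlW ((S.Ψ.map (enumS S.a (S.k + (S.N + S.N)) S.c)).map fun v => renL S v) :=
    pt_map (φ := fun S : LinSentence => S.Ψ.map (enumS S.a (S.k + (S.N + S.N)) S.c)) pw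
      (r := fun q : LinSentence × ℕ => renL q.1 q.2) hr
  have hE : PT fun S : LinSentence => cE S.m S.l S.N S.c :=
    PT.add pN' (PT.add pN' (PT.add pl (PT.add pn (PT.add ps3 (PT.add pnn (PT.add pm
      (PT.add pl (PT.add pN' (PT.add pN' pc)))))))))
  refine ptc (PT.pair pa (PT.pair puS (PT.pair hE (pt_allF hψ)))) fun S => ?_
  have h1 : code (linOf S) = code (S.a, (kU S.k S.m S.N, (cE S.m S.l S.N S.c,
    (linOf S).word))) := rfl
  have h2 : (linOf S).word = fmlW (allF (stdN S)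
    ((S.Ψ.map (enumS S.a (S.k + (S.N + S.N)) S.c)).map fun v => renL S v)) :=
    congrArg fmlW (linF_map S)
  rw [h1, h2]
  rfl

end Pool.Agent.Lib.VC77.LI
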