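import Pool.Agent.Lib.VC77.Defs

/-!
# From sentences to families of subsets of the line, with numerals instead of integer constants
-/

set_option autoImplicit false

namespace Pool.Agent.Lib.VC77.LN

open Pool.Agent.Lib.VC77

section

variable {a k c : ℕ}

/-- The indices of the parameters: bits, switches, carriers, coordinates, witnesses. -/
abbrev Par (a k c : ℕ) : Type :=
  Fin k ⊕ (Fin (a + 1) ⊕ (Fin (a + 1) ⊕ (Fin (a + 1) ⊕ Fin c)))

/-- the number of parameters -/
abbrev parNum (a k c : ℕ) : ℕ := k + ((a + 1) + ((a + 1) + ((a + 1) + c)))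

/-- numbering of the parameters -/
def parEquiv (a k c : ℕ) : Par a k c ≃ Fin (parNum a k c) :=
  (Equiv.sumCongr (Equiv.refl _) ((Equiv.sumCongr (Equiv.refl _)
    ((Equiv.sumCongr (Equiv.refl _) finSumFinEquiv).trans finSumFinEquiv)).trans
      finSumFinEquiv)).trans finSumFinEquiv

/-- the point of the line -/
def tT : Tm (Fin 1 ⊕ Par a k c) := .var (.inl 0)

/-- the bit `i` -/
def bT (i : Fin k) : Tm (Fin 1 ⊕ Par a k c) := .var (.inr (.inl i))

/-- the switch `j` -/
def dT (j : Fin (a + 1)) : Tm (Fin 1 ⊕ Par a k c) := .var (.inr (.inr (.inl j)))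

/-- the carrier `j` -/
def uT (j : Fin (a + 1)) : Tm (Fin 1 ⊕ Par a k c) := .var (.inr (.inr (.inr (.inl j))))

/-- the coordinate `j` -/
def xT (j : Fin (a + 1)) : Tm (Fin 1 ⊕ Par a k c) := .var (.inr (.inr (.inr (.inr (.inl j)))))

/-- the places of the variables of `Φ` -/
def ren : Fin a ⊕ (Fin k ⊕ Fin c) → Fin 1 ⊕ Par a k c :=
  Sum.elim (fun j => .inr (.inr (.inr (.inr (.inl j.castSucc)))))
    (Sum.elim (fun i => .inr (.inl i)) fun l => .inr (.inr (.inr (.inr (.inr l)))))

/-- the number `j` -/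
def numT {V : Type} : ℕ → Tm V
  | 0 => .add (.const 1) (.const (-1))
  | j + 1 => .add (numT j) (.const 1)

theorem val_numT {V : Type} (ρ : V → ℝ) (j : ℕ) : (numT j).val ρ = j := by
  induction j with
  | zero => simp [numT, Tm.val]
  | succ j ih => rw [numT, Tm.val, ih]; simp [Tm.val]

/-- the bits are `0` or `1` -/
def bitsF : Fml (Fin 1 ⊕ Par a k c) :=
  bigAnd ((List.finRange k).map fun i : Fin k => .or (.eq (bT i) (numT 0)) (.eq (bT i) (.const 1)))

/-- the carrier `j` lies in the open interval `(j, j + 1)` -/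
def slotsF : Fml (Fin 1 ⊕ Par a k c) :=
  bigAnd ((List.finRange (a + 1)).map fun j : Fin (a + 1) =>
    .and (.lt (numT (j : ℕ)) (uT j)) (.lt (uT j) (numT ((j : ℕ) + 1))))

/-- some switch is off -/
def offF : Fml (Fin 1 ⊕ Par a k c) :=
  bigOr ((List.finRange (a + 1)).map fun j : Fin (a + 1) => .not (.eq (dT j) (.const 1)))

/-- the fractional part of the carrier `j` -/
def sT (j : Fin (a + 1)) : Tm (Fin 1 ⊕ Par a k c) := .add (uT j) (.mul (.const (-1)) (numT (j : ℕ)))

/-- one minus the fractional part of the carrier `j` -/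
def rT (j : Fin (a + 1)) : Tm (Fin 1 ⊕ Par a k c) :=
  .add (numT ((j : ℕ) + 1)) (.mul (.const (-1)) (uT j))

/-- `X_j s_j (1 - s_j) = 2 s_j - 1`, where `s_j` is the fractional part of the carrier `j` -/
def relF : Fml (Fin 1 ⊕ Par a k c) :=
  bigAnd ((List.finRange (a + 1)).map fun j : Fin (a + 1) =>
    .eq (.mul (xT j) (.mul (sT j) (rT j))) (.add (sT j) (.add (sT j) (.const (-1)))))

/-- the point is a bit point whose bit is `1` -/
def memBF : Fml (Fin 1 ⊕ Par a k c) :=
  bigOr ((List.finRange k).map fun i : Fin k =>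
    .and (.eq (bT i) (.const 1)) (.eq tT (numT (i : ℕ))))

/-- the point is a carrier whose switch is on -/
def memDF : Fml (Fin 1 ⊕ Par a k c) :=
  bigOr ((List.finRange (a + 1)).map fun j : Fin (a + 1) => .and (.eq (dT j) (.const 1)) (.eq tT (uT j)))

/-- the family, with the parameters indexed by `Par` -/
def lineF (Φ : Fml (Fin a ⊕ (Fin k ⊕ Fin c))) : Fml (Fin 1 ⊕ Par a k c) :=
  .and (.and bitsF slotsF) (.and (.or offF (.and relF (Φ.map ren))) (.or memBF memDF))

/-- The family of subsets of the line that belongs to `Φ`. -/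
def toLine (Φ : Fml (Fin a ⊕ (Fin k ⊕ Fin c))) : Fml (Fin 1 ⊕ Fin (parNum a k c)) :=
  (lineF Φ).map (Sum.map id (parEquiv a k c))

/-- the meaning of `lineF` -/
def Line (Φ : Fml (Fin a ⊕ (Fin k ⊕ Fin c))) (t : ℝ) (b : Fin k → ℝ) (d u X : Fin (a + 1) → ℝ)
    (Z : Fin c → ℝ) : Prop :=
  ((∀ i, b i = 0 ∨ b i = 1) ∧ ∀ j : Fin (a + 1), ((j : ℕ) : ℝ) < u j ∧ u j < (j : ℕ) + 1) ∧
    ((∃ j, d j ≠ 1) ∨
      ((∀ j : Fin (a + 1), X j * ((u j - (j : ℕ)) * ((j : ℕ) + 1 - u j)) = 2 * (u j - (j : ℕ)) - 1) ∧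
        Φ.Holds (Sum.elim (fun j => X j.castSucc) (Sum.elim b Z)))) ∧
    ((∃ i : Fin k, b i = 1 ∧ t = ((i : ℕ) : ℝ)) ∨ ∃ j, d j = 1 ∧ t = u j)

theorem holds_lineF (Φ : Fml (Fin a ⊕ (Fin k ⊕ Fin c))) (x : Fin 1 → ℝ) (b : Fin k → ℝ)
    (d u X : Fin (a + 1) → ℝ) (Z : Fin c → ℝ) :
    (lineF Φ).Holds (Sum.elim x (Sum.elim b (Sum.elim d (Sum.elim u (Sum.elim X Z))))) ↔
      Line Φ (x 0) b d u X Z := by
  have hren : (Sum.elim x (Sum.elim b (Sum.elim d (Sum.elim u (Sum.elim X Z))))) ∘
      (ren : Fin a ⊕ (Fin k ⊕ Fin c) → Fin 1 ⊕ Par a k c) =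
      Sum.elim (fun j => X j.castSucc) (Sum.elim b Z) := by
    funext v
    rcases v with j | i | l <;> rfl
  have h1 : ∀ j : Fin (a + 1), (X j * ((u j + -1 * ((j : ℕ) : ℝ)) * (((j : ℕ) : ℝ) + 1 + -1 * u j)) =
      u j + -1 * ((j : ℕ) : ℝ) + (u j + -1 * ((j : ℕ) : ℝ) + -1)) ↔
      X j * ((u j - (j : ℕ)) * ((j : ℕ) + 1 - u j)) = 2 * (u j - (j : ℕ)) - 1 := by
    intro j
    constructor
    · intro h
      linear_combination h
    · intro h
      linear_combination h
  simp only [lineF, Fml.Holds, bitsF, slotsF, offF, relF, memBF, memDF, holds_bigAnd, holds_bigOr,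
    Fml.holds_map, hren, List.mem_map, List.mem_finRange, true_and, forall_exists_index,
    forall_apply_eq_imp_iff, exists_exists_eq_and, tT, bT, dT, uT, xT, sT, rT, Tm.val, val_numT, Nat.cast_zero, Sum.elim_inl,
    Sum.elim_inr, Int.cast_one, Int.cast_neg, Nat.cast_add,
    Nat.cast_one, h1, Line, Fin.isValue, ne_eq]

theorem at_toLine (Φ : Fml (Fin a ⊕ (Fin k ⊕ Fin c))) (x : Fin 1 → ℝ)
    (y : Fin (parNum a k c) → ℝ) :
    (toLine Φ).At x y ↔ Line Φ (x 0) (fun i => y (parEquiv a k c (.inl i)))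
      (fun j => y (parEquiv a k c (.inr (.inl j))))
      (fun j => y (parEquiv a k c (.inr (.inr (.inl j)))))
      (fun j => y (parEquiv a k c (.inr (.inr (.inr (.inl j))))))
      (fun j => y (parEquiv a k c (.inr (.inr (.inr (.inr j)))))) := by
  rw [Fml.At, toLine, Fml.holds_map, ← holds_lineF]
  have h : (Sum.elim x y) ∘ (Sum.map id (parEquiv a k c)) =
      Sum.elim x (Sum.elim (fun i => y (parEquiv a k c (.inl i)))
        (Sum.elim (fun j => y (parEquiv a k c (.inr (.inl j))))
          (Sum.elim (fun j => y (parEquiv a k c (.inr (.inr (.inl j)))))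
            (Sum.elim (fun j => y (parEquiv a k c (.inr (.inr (.inr (.inl j))))))
              (fun j => y (parEquiv a k c (.inr (.inr (.inr (.inr j)))))))))) := by
    funext v
    rcases v with v | i | j | j | j | j <;> rfl
  rw [h]

/-- the parameters from their parts -/
def mk (b : Fin k → ℝ) (d u X : Fin (a + 1) → ℝ) (Z : Fin c → ℝ) : Fin (parNum a k c) → ℝ :=
  fun v => Sum.elim b (Sum.elim d (Sum.elim u (Sum.elim X Z))) ((parEquiv a k c).symm v)

theorem at_mk (Φ : Fml (Fin a ⊕ (Fin k ⊕ Fin c))) (x : Fin 1 → ℝ) (b : Fin k → ℝ)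
    (d u X : Fin (a + 1) → ℝ) (Z : Fin c → ℝ) :
    (toLine Φ).At x (mk b d u X Z) ↔ Line Φ (x 0) b d u X Z := by
  rw [at_toLine]
  simp only [mk, Equiv.symm_apply_apply, Sum.elim_inl, Sum.elim_inr]

/-- every real number is `(2 s - 1) / (s (1 - s))` for some `s` in `(0, 1)` -/
theorem exists_frac (X : ℝ) : ∃ s : ℝ, 0 < s ∧ s < 1 ∧ X * (s * (1 - s)) = 2 * s - 1 := by
  have hc : ContinuousOn (fun s : ℝ => 2 * s - 1 - X * (s * (1 - s))) (Set.Icc 0 1) := by
    fun_prop
  have h0 : (0 : ℝ) ∈ Set.Ioo ((fun s : ℝ => 2 * s - 1 - X * (s * (1 - s))) 0)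
      ((fun s : ℝ => 2 * s - 1 - X * (s * (1 - s))) 1) := by
    constructor <;> norm_num
  obtain ⟨s, hs, h⟩ := intermediate_value_Ioo zero_le_one hc h0
  exact ⟨s, hs.1, hs.2, by simp only at h; linarith⟩

theorem slot_unique {u : ℝ} {i j : ℕ} (h1 : (i : ℝ) < u) (h2 : u < i + 1) (h3 : (j : ℝ) < u)
    (h4 : u < j + 1) : i = j := by
  have h5 : (i : ℝ) < j + 1 := h1.trans h4
  have h6 : (j : ℝ) < i + 1 := h3.trans h2
  have h7 : i < j + 1 := by exact_mod_cast h5
  have h8 : j < i + 1 := by exact_mod_cast h6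
  omega

theorem not_int {u : ℝ} {i j : ℕ} (h1 : (j : ℝ) < u) (h2 : u < j + 1) (h : u = i) : False := by
  rw [h] at h1 h2
  have h3 : j < i := by exact_mod_cast h1
  have h4 : i < j + 1 := by exact_mod_cast h2
  omega

/-- the points of a valid parameter -/
def pts (u : Fin (a + 1) → ℝ) : Fin k ⊕ Fin (a + 1) → (Fin 1 → ℝ) :=
  Sum.elim (fun i _ => ((i : ℕ) : ℝ)) fun j _ => u j

theorem pts_injective {u : Fin (a + 1) → ℝ}
    (hu : ∀ j : Fin (a + 1), ((j : ℕ) : ℝ) < u j ∧ u j < (j : ℕ) + 1) :
    Function.Injective (pts (k := k) u) := by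
  rintro (i | j) (i' | j') h
  · have h1 := congrFun h 0
    simp only [pts, Sum.elim_inl, Nat.cast_inj] at h1
    rw [Fin.ext h1]
  · have h1 := congrFun h 0
    simp only [pts, Sum.elim_inl, Sum.elim_inr] at h1
    exact (not_int (hu j').1 (hu j').2 h1.symm).elim
  · have h1 := congrFun h 0
    simp only [pts, Sum.elim_inl, Sum.elim_inr] at h1
    exact (not_int (hu j).1 (hu j).2 h1).elim
  · have h1 := congrFun h 0
    simp only [pts, Sum.elim_inr] at h1
    rw [Fin.ext (slot_unique (hu j).1 (hu j).2 (h1 ▸ (hu j').1) (h1 ▸ (hu j').2))]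

theorem vc_toLine (Φ : Fml (Fin a ⊕ (Fin k ⊕ Fin c))) :
    VCGe (toLine Φ) (k + (a + 1)) ↔ EBE Φ := by
  classical
  constructor
  · rintro ⟨P, hP, h⟩
    -- the whole set
    obtain ⟨y, hy⟩ := h P subset_rfl
    set b := fun i => y (parEquiv a k c (.inl i)) with hb
    set d := fun j => y (parEquiv a k c (.inr (.inl j))) with hd
    set u := fun j => y (parEquiv a k c (.inr (.inr (.inl j)))) with hu
    have hmem : ∀ x ∈ P, ∃ e, pts (k := k) u e = x := by
      intro x hx
      have h1 := (at_toLine Φ x y).1 ((hy x hx).2 hx)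
      rcases h1.2.2 with ⟨i, -, hi⟩ | ⟨j, -, hj⟩
      · exact ⟨.inl i, funext fun l => by rw [Subsingleton.elim l 0]; exact hi.symm⟩
      · exact ⟨.inr j, funext fun l => by rw [Subsingleton.elim l 0]; exact hj.symm⟩
    have hne : P.Nonempty := Finset.card_pos.1 (by omega)
    obtain ⟨x0, hx0⟩ := hne
    have hslot : ∀ j : Fin (a + 1), ((j : ℕ) : ℝ) < u j ∧ u j < (j : ℕ) + 1 :=
      ((at_toLine Φ x0 y).1 ((hy x0 hx0).2 hx0)).1.2
    have hPe : Finset.univ.image (pts (k := k) u) = P := by
      symm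
      apply Finset.eq_of_subset_of_card_le
      · intro x hx
        obtain ⟨e, he⟩ := hmem x hx
        exact Finset.mem_image.2 ⟨e, Finset.mem_univ _, he⟩
      · refine Finset.card_image_le.trans ?_
        rw [Finset.card_univ, Fintype.card_sum, Fintype.card_fin, Fintype.card_fin, hP]
    have hin : ∀ e, pts (k := k) u e ∈ P := fun e => by
      rw [← hPe]
      exact Finset.mem_image_of_mem _ (Finset.mem_univ _)
    have hinj := pts_injective (k := k) hslot
    refine ⟨fun j => (2 * (u j.castSucc - (j : ℕ)) - 1) /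
      ((u j.castSucc - (j : ℕ)) * ((j : ℕ) + 1 - u j.castSucc)), fun β => ?_⟩
    -- the subset of `β`
    obtain ⟨y', hy'⟩ := h ((Finset.univ.filter fun e : Fin k ⊕ Fin (a + 1) =>
        Sum.elim (fun i => β i = true) (fun _ => True) e).image (pts (k := k) u)) (by
      intro x hx
      obtain ⟨e, -, rfl⟩ := Finset.mem_image.1 hx
      exact hin e)
    have hsel : ∀ e, pts (k := k) u e ∈ ((Finset.univ.filter fun e : Fin k ⊕ Fin (a + 1) =>
        Sum.elim (fun i => β i = true) (fun _ => True) e).image (pts (k := k) u)) ↔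
        Sum.elim (fun i => β i = true) (fun _ => True) e := by
      intro e
      constructor
      · intro he
        obtain ⟨e', he', hee⟩ := Finset.mem_image.1 he
        rw [← hinj hee]
        exact (Finset.mem_filter.1 he').2
      · intro he
        exact Finset.mem_image_of_mem _ (Finset.mem_filter.2 ⟨Finset.mem_univ _, he⟩)
    have hL : ∀ e, Line Φ (pts (k := k) u e 0) (fun i => y' (parEquiv a k c (.inl i)))
        (fun j => y' (parEquiv a k c (.inr (.inl j))))
        (fun j => y' (parEquiv a k c (.inr (.inr (.inl j)))))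
        (fun j => y' (parEquiv a k c (.inr (.inr (.inr (.inl j))))))
        (fun j => y' (parEquiv a k c (.inr (.inr (.inr (.inr j)))))) ↔
        Sum.elim (fun i => β i = true) (fun _ => True) e := by
      intro e
      rw [← at_toLine, hy' _ (hin e), hsel]
    generalize (fun i => y' (parEquiv a k c (.inl i))) = b' at hL
    generalize (fun j => y' (parEquiv a k c (.inr (.inl j)))) = d' at hL
    generalize (fun j => y' (parEquiv a k c (.inr (.inr (.inl j))))) = u' at hL
    generalize (fun j => y' (parEquiv a k c (.inr (.inr (.inr (.inl j)))))) = X' at hL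
    generalize (fun j => y' (parEquiv a k c (.inr (.inr (.inr (.inr j)))))) = Z' at hL
    have h0 := (hL (.inr 0)).2 trivial
    have hslot' := h0.1.2
    have hon : ∀ j, d' j = 1 ∧ u' j = u j := by
      intro j
      have h1 := (hL (.inr j)).2 trivial
      rcases h1.2.2 with ⟨i, -, hi⟩ | ⟨j', hj', hj⟩
      · exact (not_int (hslot j).1 (hslot j).2 hi).elim
      · simp only [pts, Sum.elim_inr] at hj
        have : j = j' := Fin.ext (slot_unique (hslot j).1 (hslot j).2 (hj ▸ (hslot' j').1)
          (hj ▸ (hslot' j').2))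
        subst this
        exact ⟨hj', hj.symm⟩
    have hΦ := h0.2.1.resolve_left (by rintro ⟨j, hj⟩; exact hj (hon j).1)
    refine ⟨Z', ?_⟩
    have hX : (fun j : Fin a => X' j.castSucc) = fun j : Fin a =>
        (2 * (u j.castSucc - (j : ℕ)) - 1) /
          ((u j.castSucc - (j : ℕ)) * ((j : ℕ) + 1 - u j.castSucc)) := by
      funext j
      have h1 := hΦ.1 j.castSucc
      have h2 := hslot j.castSucc
      rw [(hon j.castSucc).2] at h1
      simp only [Fin.val_castSucc] at h1 h2
      rw [eq_div_iff (mul_ne_zero (by linarith) (by linarith))]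
      exact h1
    have hB : b' = fun i => if β i = true then (1 : ℝ) else 0 := by
      funext i
      have h1 := hL (.inl i)
      simp only [pts, Sum.elim_inl] at h1
      by_cases hβ : β i = true
      · rw [if_pos hβ]
        have h2 := (h1.2 hβ).2.2
        rcases h2 with ⟨i', hi', hi⟩ | ⟨j, -, hj⟩
        · have : i = i' := Fin.ext (by exact_mod_cast hi)
          exact this ▸ hi'
        · exact (not_int (hslot' j).1 (hslot' j).2 hj.symm).elim
      · rw [if_neg hβ]
        rcases h0.1.1 i with h2 | h2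
        · exact h2
        · exact (hβ (h1.1 ⟨h0.1, h0.2.1, Or.inl ⟨i, h2, rfl⟩⟩)).elim
    have h3 := hΦ.2
    rw [hX, hB] at h3
    exact h3
  · rintro ⟨X, hX⟩
    choose s hs0 hs1 hs using fun j : Fin (a + 1) =>
      exists_frac (if h : (j : ℕ) < a then X ⟨j, h⟩ else 0)
    set u : Fin (a + 1) → ℝ := fun j => (j : ℕ) + s j with hu
    have hslot : ∀ j : Fin (a + 1), ((j : ℕ) : ℝ) < u j ∧ u j < (j : ℕ) + 1 := fun j =>
      ⟨by simp only [hu]; linarith [hs0 j], by simp only [hu]; linarith [hs1 j]⟩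
    have hinj := pts_injective (k := k) hslot
    refine ⟨Finset.univ.image (pts (k := k) u), ?_, ?_⟩
    · rw [Finset.card_image_of_injective _ hinj, Finset.card_univ, Fintype.card_sum,
        Fintype.card_fin, Fintype.card_fin]
    · intro P' hP'
      obtain ⟨Z, hZ⟩ := hX fun i => decide (pts (k := k) u (.inl i) ∈ P')
      refine ⟨mk (fun i => if pts (k := k) u (.inl i) ∈ P' then 1 else 0)
        (fun j => if pts (k := k) u (.inr j) ∈ P' then 1 else 0) u
        (fun j => if h : (j : ℕ) < a then X ⟨j, h⟩ else 0) Z, fun x hx => ?_⟩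
      rw [at_mk]
      obtain ⟨e, -, rfl⟩ := Finset.mem_image.1 hx
      have hcond : (∃ j : Fin (a + 1), (if pts (k := k) u (.inr j) ∈ P' then (1 : ℝ) else 0) ≠ 1) ∨
          ((∀ j : Fin (a + 1), (if h : (j : ℕ) < a then X ⟨j, h⟩ else 0) *
            ((u j - (j : ℕ)) * ((j : ℕ) + 1 - u j)) = 2 * (u j - (j : ℕ)) - 1) ∧
          Φ.Holds (Sum.elim (fun j : Fin a =>
              if h : ((j.castSucc : Fin (a + 1)) : ℕ) < a then X ⟨(j.castSucc : Fin (a + 1)), h⟩
              else 0)
            (Sum.elim (fun i => if pts (k := k) u (.inl i) ∈ P' then 1 else 0) Z))) := by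
        right
        constructor
        · intro j
          have h1 := hs j
          have h2 : u j - (j : ℕ) = s j := by simp only [hu]; ring
          have h3 : ((j : ℕ) : ℝ) + 1 - u j = 1 - s j := by simp only [hu]; ring
          rw [h2, h3]
          exact h1
        · have h1 : (fun j : Fin a =>
              if h : ((j.castSucc : Fin (a + 1)) : ℕ) < a then X ⟨(j.castSucc : Fin (a + 1)), h⟩
              else 0) = X := by
            funext j
            have : ((j.castSucc : Fin (a + 1)) : ℕ) < a := j.2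
            rw [dif_pos this]
            rfl
          rw [h1]
          simpa only [decide_eq_true_eq] using hZ
      constructor
      · rintro ⟨-, -, ⟨i, hi, ht⟩ | ⟨j, hj, ht⟩⟩
        · have he : pts (k := k) u e = pts (k := k) u (.inl i) :=
            funext fun l => by rw [Subsingleton.elim l 0]; exact ht
          rw [he]
          by_contra hne
          exact zero_ne_one ((if_neg hne).symm.trans hi)
        · have he : pts (k := k) u e = pts (k := k) u (.inr j) :=
            funext fun l => by rw [Subsingleton.elim l 0]; exact ht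
          rw [he]
          by_contra hne
          exact zero_ne_one ((if_neg hne).symm.trans hj)
      · intro he
        refine ⟨⟨fun i => ?_, hslot⟩, hcond, ?_⟩
        · by_cases hi : pts (k := k) u (.inl i) ∈ P'
          · exact Or.inr (if_pos hi)
          · exact Or.inl (if_neg hi)
        · rcases e with i | j
          · exact Or.inl ⟨i, if_pos he, rfl⟩
          · exact Or.inr ⟨j, if_pos he, rfl⟩

/-- every set of the family has at most `k + (a + 1)` points -/
theorem finite_toLine (Φ : Fml (Fin a ⊕ (Fin k ⊕ Fin c))) (y : Fin (parNum a k c) → ℝ) :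
    {x | (toLine Φ).At x y}.Finite ∧ {x | (toLine Φ).At x y}.ncard ≤ k + (a + 1) := by
  classical
  have h : {x | (toLine Φ).At x y} ⊆ ((Finset.univ.image
      (pts (k := k) fun j => y (parEquiv a k c (.inr (.inr (.inl j))))) :
        Finset (Fin 1 → ℝ)) : Set (Fin 1 → ℝ)) := by
    intro x hx
    have h1 := (at_toLine Φ x y).1 hx
    rw [Finset.mem_coe, Finset.mem_image]
    rcases h1.2.2 with ⟨i, -, hi⟩ | ⟨j, -, hj⟩
    · exact ⟨.inl i, Finset.mem_univ _, funext fun l => by
        rw [Subsingleton.elim l 0]; exact hi.symm⟩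
    · exact ⟨.inr j, Finset.mem_univ _, funext fun l => by
        rw [Subsingleton.elim l 0]; exact hj.symm⟩
  refine ⟨(Finset.finite_toSet _).subset h, (Set.ncard_le_ncard h (Finset.finite_toSet _)).trans ?_⟩
  rw [Set.ncard_coe_finset]
  refine Finset.card_image_le.trans (le_of_eq ?_)
  rw [Finset.card_univ, Fintype.card_sum, Fintype.card_fin, Fintype.card_fin]

end

end Pool.Agent.Lib.VC77.LN
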